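import Pool.Agent.Lib.MP_0d9445_pr.PPP.Count
import Pool.Agent.Lib.MP_0d9445_pr.Net.Map
import Pool.Agent.Lib.MP_0d9445_pr.Walk.Hyp

/-!
Measurable families of finite point sets, nets and finite cell structures in the plane.
-/

set_option autoImplicit false

open Set MeasureTheory Filter Topology Pool.Agent.Lib.MP_0d9445_pr
  Pool.Agent.Lib.MP_0d9445_pr.PPP Pool.Agent.Lib.MP_0d9445_pr.Walk
open scoped Classical

namespace LQ.Met

variable {α α' : Type*} [MeasurableSpace α] [MeasurableSpace α'] {c : α → Conf ℂ}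
  {S S' : α → Finset ℂ}

/-- a measurable family of finite sets of points of the configurations `c a` -/
structure MSet (c : α → Conf ℂ) (S : α → Finset ℂ) : Prop where
  meas : Measurable c
  sub : ∀ a, (S a : Set ℂ) ⊆ pts (c a)
  mem : MeasurableSet {q : α × ℂ | q.2 ∈ S q.1}

theorem MSet.comp (h : MSet c S) {g : α' → α} (hg : Measurable g) :
    MSet (fun a => c (g a)) fun a => S (g a) :=
  ⟨h.meas.comp hg, fun _ => h.sub _,
    ((hg.comp measurable_fst).prodMk measurable_snd : Measurable fun q : α' × ℂ => (g q.1, q.2))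
      h.mem⟩

theorem MSet.filter (h : MSet c S) {p : α → ℂ → Prop} [∀ a, DecidablePred (p a)]
    (hp : MeasurableSet {q : α × ℂ | p q.1 q.2}) : MSet c fun a => (S a).filter (p a) :=
  ⟨h.meas, fun a _ hy => h.sub a (Finset.mem_filter.1 hy).1, by
    simp only [Finset.mem_filter]
    exact h.mem.inter hp⟩

theorem MSet.measurable_sum {β : Type*} [AddCommMonoid β] [MeasurableSpace β] [MeasurableAdd₂ β]
    (h : MSet c S) {f : α → ℂ → β} (hf : Measurable fun q : α × ℂ => f q.1 q.2) :
    Measurable fun a => ∑ y ∈ S a, f a y := by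
  have key : Measurable fun p : α × Conf ℂ => ∑ i,
      if (∀ j, j < i → p.2.2 j ≠ p.2.2 i) ∧ p.2.2 i ∈ S p.1 then f p.1 (p.2.2 i) else 0 := by
    refine measurable_prod_conf fun n => ?_
    change Measurable fun p : α × (Fin n → ℂ) => ∑ i : Fin n,
      if (∀ j, j < i → p.2 j ≠ p.2 i) ∧ p.2 i ∈ S p.1 then f p.1 (p.2 i) else 0
    refine Finset.measurable_sum _ fun i _ => ?_
    have hi : Measurable fun p : α × (Fin n → ℂ) => (p.1, p.2 i) :=
      measurable_fst.prodMk ((measurable_pi_apply i).comp measurable_snd)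
    refine Measurable.ite (MeasurableSet.inter ?_ (hi h.mem)) (hf.comp hi) measurable_const
    exact measurableSet_setOfPred.2 (Measurable.forall fun j => Measurable.imp measurable_const
      (Measurable.not (((measurable_pi_apply j).comp measurable_snd).eq
        ((measurable_pi_apply i).comp measurable_snd))))
  have e : (fun a => ∑ y ∈ S a, f a y) = fun a => ∑ i,
      if (∀ j, j < i → (c a).2 j ≠ (c a).2 i) ∧ (c a).2 i ∈ S a then f a ((c a).2 i) else 0 := by
    funext a
    rw [← Finset.sum_filter]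
    symm
    refine Finset.sum_bij (fun i _ => (c a).2 i) (fun i hi => (Finset.mem_filter.1 hi).2.2)
      (fun i hi j hj hij => firsts_injOn (c a).2 ?_ ?_ hij) (fun y hy => ?_) fun _ _ => rfl
    · exact Finset.mem_coe.2 (Finset.mem_filter.2 ⟨Finset.mem_univ _, (Finset.mem_filter.1 hi).2.1⟩)
    · exact Finset.mem_coe.2 (Finset.mem_filter.2 ⟨Finset.mem_univ _, (Finset.mem_filter.1 hj).2.1⟩)
    · have : y ∈ (c a).2 '' firsts (c a).2 := by
        rw [image_firsts]
        exact h.sub a hy
      obtain ⟨i, hi, rfl⟩ := this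
      exact ⟨i, Finset.mem_filter.2
        ⟨Finset.mem_univ _, (Finset.mem_filter.1 (Finset.mem_coe.1 hi)).2, hy⟩, rfl⟩
  rw [e]
  exact key.comp (measurable_id.prodMk h.meas)

theorem MSet.measurable_card (h : MSet c S) : Measurable fun a => (S a).card := by
  simpa using h.measurable_sum (f := fun _ _ => (1 : ℕ)) measurable_const

theorem MSet.measurableSet_exists (h : MSet c S) {p : α → ℂ → Prop}
    (hp : MeasurableSet {q : α × ℂ | p q.1 q.2}) : MeasurableSet {a | ∃ y ∈ S a, p a y} := by
  have := (h.filter hp).measurable_card (measurableSet_singleton 0).compl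
  convert this using 1
  ext a
  simp [Finset.filter_eq_empty_iff]

theorem MSet.measurableSet_forall (h : MSet c S) {p : α → ℂ → Prop}
    (hp : MeasurableSet {q : α × ℂ | p q.1 q.2}) : MeasurableSet {a | ∀ y ∈ S a, p a y} := by
  have := (h.measurableSet_exists (p := fun a y => ¬ p a y) hp.compl).compl
  convert this using 1
  ext a
  simp

/-- all points of the configuration -/
theorem mset_pts (hc : Measurable c) : MSet c fun a => (pts_finite (c a)).toFinset :=
  ⟨hc, fun a y hy => by simpa using hy, by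
    simp only [Finite.mem_toFinset]
    exact (measurable_snd.prodMk (hc.comp measurable_fst)) measurableSet_mem_pts⟩

/-- a measurable family of nets on the points of the configurations `c a` -/
def MNet (c : α → Conf ℂ) (G : α → Net ℂ) : Prop :=
  MSet (fun q : α × ℂ => c q.1) fun q => (G q.1).N q.2

variable {G : α → Net ℂ}

theorem MNet.comp (h : MNet c G) {g : α' → α} (hg : Measurable g) :
    MNet (fun a => c (g a)) fun a => G (g a) :=
  MSet.comp h (g := fun q : α' × ℂ => (g q.1, q.2)) ((hg.comp measurable_fst).prodMk measurable_snd)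

theorem MNet.measurable_deg (h : MNet c G) : Measurable fun q : α × ℂ => (G q.1).deg q.2 :=
  (measurable_from_top (f := fun n : ℕ => (n : ℝ))).comp (MSet.measurable_card h)

theorem MNet.measurable_en (h : MNet c G) (hS : MSet c S) {u v : α → ℂ → ℝ}
    (hu : Measurable fun q : α × ℂ => u q.1 q.2) (hv : Measurable fun q : α × ℂ => v q.1 q.2) :
    Measurable fun a => (G a).en (S a) (u a) (v a) := by
  have h1 : Measurable fun z : (α × ℂ) × ℂ => (z.1.1, z.2) := by fun_prop
  refine measurable_const.mul (hS.measurable_sum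
    (f := fun a x => ∑ y ∈ (G a).N x, (u a x - u a y) * (v a x - v a y)) ?_)
  exact MSet.measurable_sum h
    (f := fun q y => (u q.1 q.2 - u q.1 y) * (v q.1 q.2 - v q.1 y))
    (((hu.comp measurable_fst).sub (hu.comp h1)).mul ((hv.comp measurable_fst).sub (hv.comp h1)))

theorem MNet.inner (h : MNet c G) (hS : MSet c S) : MSet c fun a => (G a).inner (S a) := by
  refine hS.filter (p := fun a x => (G a).N x ⊆ S a) ?_
  exact MSet.measurableSet_forall h (p := fun q y => y ∈ S q.1)
    ((by fun_prop : Measurable fun z : (α × ℂ) × ℂ => (z.1.1, z.2)) hS.mem)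

theorem exists_continuous_eqOn (F : Finset ℂ) (u : ℂ → ℝ) :
    ∃ w : C(ℂ, ℝ), ∀ x ∈ F, w x = u x := by
  obtain ⟨w, hw⟩ := ContinuousMap.exists_restrict_eq F.finite_toSet.isClosed
    (⟨fun x => u x, continuous_of_discreteTopology⟩ : C((F : Set ℂ), ℝ))
  exact ⟨w, fun x hx => DFunLike.congr_fun hw ⟨x, hx⟩⟩

theorem nu_lt_iff (G : Net ℂ) (S : Finset ℂ) (φ : ℂ → ℝ) {Q : Set C(ℂ, ℝ)} (hQ : Dense Q) (t : ℝ) :
    G.nu S φ < t ↔ ∃ w ∈ Q, G.en S (fun x => if x ∈ G.inner S then w x else φ x)
      (fun x => if x ∈ G.inner S then w x else φ x) < t := by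
  refine ⟨fun h => ?_, fun ⟨w, _, hw⟩ => (G.nu_le S fun x _ hx => if_neg hx).trans_lt hw⟩
  have h1 : ∀ x, Continuous fun w : C(ℂ, ℝ) => if x ∈ G.inner S then w x else φ x := fun x => by
    split_ifs <;> fun_prop
  have hc : Continuous fun w : C(ℂ, ℝ) => G.en S (fun x => if x ∈ G.inner S then w x else φ x)
      (fun x => if x ∈ G.inner S then w x else φ x) :=
    continuous_const.mul (continuous_finsetSum _ fun x _ => continuous_finsetSum _ fun y _ =>
      ((h1 x).sub (h1 y)).mul ((h1 x).sub (h1 y)))
  obtain ⟨w, hw⟩ := exists_continuous_eqOn (G.inner S) (G.hx S φ)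
  have e : (fun x => if x ∈ G.inner S then w x else φ x) = G.hx S φ := by
    funext x
    split_ifs with hx
    · exact hw x hx
    · exact (G.hx_out S φ hx).symm
  obtain ⟨w', h2, h3⟩ := hQ.exists_mem_open (isOpen_lt hc continuous_const)
    ⟨w, show G.en S _ _ < t by rw [e]; exact h⟩
  exact ⟨w', h2, h3⟩

theorem MNet.measurable_nu (h : MNet c G) (hS : MSet c S) {φ : α → ℂ → ℝ}
    (hφ : Measurable fun q : α × ℂ => φ q.1 q.2) :
    Measurable fun a => (G a).nu (S a) (φ a) := by
  obtain ⟨Q, hc, hQ⟩ := TopologicalSpace.exists_countable_dense C(ℂ, ℝ)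
  refine measurable_of_Iio fun t => ?_
  have e : (fun a => (G a).nu (S a) (φ a)) ⁻¹' Iio t = ⋃ w ∈ Q, {a | (G a).en (S a)
      (fun x => if x ∈ (G a).inner (S a) then w x else φ a x)
      (fun x => if x ∈ (G a).inner (S a) then w x else φ a x) < t} := by
    ext a
    simp only [mem_preimage, mem_Iio, nu_lt_iff _ _ _ hQ, mem_iUnion, mem_ofPred_eq, exists_prop]
  rw [e]
  refine MeasurableSet.biUnion hc fun w _ => ?_
  have hm : Measurable fun q : α × ℂ => if q.2 ∈ (G q.1).inner (S q.1) then w q.2 else φ q.1 q.2 :=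
    Measurable.ite (h.inner hS).mem (w.continuous.measurable.comp measurable_snd) hφ
  exact measurableSet_lt (h.measurable_en hS hm hm) measurable_const

/-- a measurable family of finite cell structures -/
structure MFC (c : α → Conf ℂ) (N : α → FC) : Prop where
  V : MSet c fun a => (N a).V
  touch : MeasurableSet {q : (α × ℂ) × ℂ | ((N q.1.1).H q.1.2 ∩ (N q.1.1).H q.2).Nonempty}
  diam : Measurable fun q : α × ℂ => Metric.diam ((N q.1).H q.2)

variable {N : α → FC}

theorem MFC.comp (h : MFC c N) {g : α' → α} (hg : Measurable g) :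
    MFC (fun a => c (g a)) fun a => N (g a) :=
  ⟨h.V.comp hg, (by fun_prop : Measurable fun q : (α' × ℂ) × ℂ => ((g q.1.1, q.1.2), q.2)) h.touch,
    h.diam.comp (f := fun q : α' × ℂ => (g q.1, q.2)) (by fun_prop)⟩

theorem MFC.net (h : MFC c N) : MNet c fun a => (N a).G := by
  refine (h.V.comp measurable_fst).filter
    (p := fun (q : α × ℂ) y => q.2 ∈ (N q.1).V ∧ q.2 ≠ y ∧ ((N q.1).H q.2 ∩ (N q.1).H y).Nonempty)
    ((measurable_fst h.V.mem).inter (MeasurableSet.inter ?_ h.touch))
  exact (measurableSet_eq_fun measurable_fst.snd measurable_snd).compl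

theorem MFC.pts (h : MFC c N) {A : Set ℂ} (hA : MeasurableSet A) : MSet c fun a => (N a).pts A :=
  h.V.filter (p := fun _ x => x ∈ A) (measurable_snd hA)

theorem measurable_lin (p : ℂ) : Measurable (lin p) := by
  unfold lin
  fun_prop

theorem MFC.measurable_nu (h : MFC c N) {A : Set ℂ} (hA : MeasurableSet A) (p : ℂ) :
    Measurable fun a => (N a).nu A p :=
  h.net.measurable_nu (h.pts hA) (φ := fun _ => lin p) ((measurable_lin p).comp measurable_snd)

theorem MFC.measurable_X (h : MFC c N) {A : Set ℂ} (hA : MeasurableSet A) :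
    Measurable fun a => (N a).X A :=
  (h.net.measurable_en (h.pts hA) (u := fun _ => Complex.re) (v := fun _ => Complex.re)
    (by fun_prop) (by fun_prop)).add
  (h.net.measurable_en (h.pts hA) (u := fun _ => Complex.im) (v := fun _ => Complex.im)
    (by fun_prop) (by fun_prop))

theorem MFC.measurable_Y (h : MFC c N) {A : Set ℂ} (hA : MeasurableSet A) :
    Measurable fun a => (N a).Y A :=
  (h.pts hA).measurable_sum (f := fun a x => Metric.diam ((N a).H x) ^ 2) (h.diam.pow_const 2)

theorem MFC.measurable_sum_deg (h : MFC c N) {A : Set ℂ} (hA : MeasurableSet A) :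
    Measurable fun a => ∑ x ∈ (N a).pts A, (N a).G.deg x :=
  (h.pts hA).measurable_sum (f := fun a x => (N a).G.deg x) h.net.measurable_deg

theorem measurableSet_box (a : ℂ) (l : ℝ) : MeasurableSet (box a l) := by
  unfold box
  measurability

end LQ.Met
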