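import Pool.Agent.Lib.MP_0d9445_pr.Met.Loc
import Pool.Agent.Lib.MP_0d9445_pr.Met.MNet

/-!
The local Voronoi structure: measurability, agreement with the true structure on the shielded
event, and covariance under affine maps.
-/

set_option autoImplicit false

open Set MeasureTheory Filter Topology Metric Function Pool.Agent.Lib.MP_0d9445_pr
  Pool.Agent.Lib.MP_0d9445_pr.PPP Pool.Agent.Lib.MP_0d9445_pr.Walk Pool.Agent.Lib.MP_0d9445_pr.Cell
open scoped Classical ComplexConjugate Pointwise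

namespace LQ.Met

variable {D T : ℂ → ℂ → ℝ} {S P U K K₀ A : Set ℂ} {r : ℝ} {x y : ℂ}

/-- the Voronoi structure of a finite point set, with the cells cut to `K` -/
noncomputable def lfc (K : Set ℂ) (T : ℂ → ℂ → ℝ) (P : Set ℂ) : FC :=
  ⟨if h : P.Finite then h.toFinset else ∅, cell K T P⟩

theorem mem_lfc (hP : P.Finite) : x ∈ (lfc K T P).V ↔ x ∈ P := by simp [lfc, hP]

theorem lfc_H (K : Set ℂ) (T : ℂ → ℂ → ℝ) (P : Set ℂ) : (lfc K T P).H = cell K T P := rfl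

theorem lfc_const_mul {c : ℝ} (hc : 0 < c) : lfc K (fun a b => c * T a b) P = lfc K T P := by
  unfold lfc
  congr 1
  exact funext fun x => cell_const_mul hc x

theorem mem_toFC {C : Cells} (hf : {x | x ∈ C.V ∧ (C.H x ∩ K₀).Nonempty}.Finite) :
    x ∈ (C.toFC K₀).V ↔ x ∈ C.V ∧ (C.H x ∩ K₀).Nonempty := by simp [Cells.toFC, hf]

/-! ### measurability -/

section meas

theorem isClosed_mem_cell {X ι : Type*} [TopologicalSpace X] (hK : IsClosed K)
    {d : X → C(ℂ × ℂ, ℝ)} {p : X → ι → ℂ} {a w : X → ℂ} (hd : Continuous d) (hp : Continuous p)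
    (ha : Continuous a) (hw : Continuous w) :
    IsClosed {q | w q ∈ cell K (curry (d q)) (range (p q)) (a q)} := by
  have e : {q | w q ∈ cell K (curry (d q)) (range (p q)) (a q)} =
      w ⁻¹' K ∩ ⋂ i, {q | d q (w q, a q) ≤ d q (w q, p q i)} := by
    ext q
    simp [cell]
  rw [e]
  exact (hK.preimage hw).inter (isClosed_iInter fun i => isClosed_le (by fun_prop) (by fun_prop))

variable [MeasurableSpace C(ℂ × ℂ, ℝ)] [BorelSpace C(ℂ × ℂ, ℝ)] {Z : Type*} [TopologicalSpace Z]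
  [SecondCountableTopology Z] [MeasurableSpace Z] [OpensMeasurableSpace Z]

omit [BorelSpace C(ℂ × ℂ, ℝ)] [TopologicalSpace Z] [SecondCountableTopology Z]
  [OpensMeasurableSpace Z] in
theorem measurable_of_fin {β : Type*} [MeasurableSpace β] {F : C(ℂ × ℂ, ℝ) → Set ℂ → Z → β}
    (h : ∀ n, Measurable fun q : (C(ℂ × ℂ, ℝ) × Z) × (Fin n → ℂ) => F q.1.1 (range q.2) q.1.2) :
    Measurable fun q : (C(ℂ × ℂ, ℝ) × Conf ℂ) × Z => F q.1.1 (pts q.1.2) q.2 :=
  (measurable_prod_conf (f := fun q : (C(ℂ × ℂ, ℝ) × Z) × Conf ℂ => F q.1.1 (pts q.2) q.1.2)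
    h).comp (f := fun q : (C(ℂ × ℂ, ℝ) × Conf ℂ) × Z => ((q.1.1, q.2), q.1.2)) (by fun_prop)

theorem measurableSet_of_Fs {p : C(ℂ × ℂ, ℝ) → Set ℂ → Z → Prop}
    (h : ∀ n, Fs fun q : (C(ℂ × ℂ, ℝ) × Z) × (Fin n → ℂ) => p q.1.1 (range q.2) q.1.2) :
    MeasurableSet {q : (C(ℂ × ℂ, ℝ) × Conf ℂ) × Z | p q.1.1 (pts q.1.2) q.2} :=
  measurableSet_setOfPred.2
    (measurable_of_fin fun n => measurableSet_setOfPred.1 (h n).measurableSet)

theorem measurableSet_of_Gd {p : C(ℂ × ℂ, ℝ) → Set ℂ → Z → Prop}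
    (h : ∀ n, Gd fun q : (C(ℂ × ℂ, ℝ) × Z) × (Fin n → ℂ) => p q.1.1 (range q.2) q.1.2) :
    MeasurableSet {q : (C(ℂ × ℂ, ℝ) × Conf ℂ) × Z | p q.1.1 (pts q.1.2) q.2} :=
  measurableSet_setOfPred.2
    (measurable_of_fin fun n => measurableSet_setOfPred.1 (h n).measurableSet)

theorem measurableSet_of_Fs' {p : C(ℂ × ℂ, ℝ) → Set ℂ → Prop}
    (h : ∀ n, Fs fun q : C(ℂ × ℂ, ℝ) × (Fin n → ℂ) => p q.1 (range q.2)) :
    MeasurableSet {q : C(ℂ × ℂ, ℝ) × Conf ℂ | p q.1 (pts q.2)} :=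
  measurableSet_setOfPred.2
    (measurable_prod_conf fun n => measurableSet_setOfPred.1 (h n).measurableSet)

theorem measurableSet_of_Gd' {p : C(ℂ × ℂ, ℝ) → Set ℂ → Prop}
    (h : ∀ n, Gd fun q : C(ℂ × ℂ, ℝ) × (Fin n → ℂ) => p q.1 (range q.2)) :
    MeasurableSet {q : C(ℂ × ℂ, ℝ) × Conf ℂ | p q.1 (pts q.2)} :=
  measurableSet_setOfPred.2
    (measurable_prod_conf fun n => measurableSet_setOfPred.1 (h n).measurableSet)

theorem measurableSet_touch (hK : IsClosed K) :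
    MeasurableSet {q : (C(ℂ × ℂ, ℝ) × Conf ℂ) × ℂ × ℂ |
      (cell K (curry q.1.1) (pts q.1.2) q.2.1 ∩ cell K (curry q.1.1) (pts q.1.2) q.2.2).Nonempty} :=
  measurableSet_of_Fs (p := fun d P (z : ℂ × ℂ) =>
    (cell K (curry d) P z.1 ∩ cell K (curry d) P z.2).Nonempty) fun _ =>
    Fs.exists (Fs.of_isClosed
      ((isClosed_mem_cell hK (by fun_prop) (by fun_prop) (by fun_prop) (by fun_prop)).inter
        (isClosed_mem_cell hK (by fun_prop) (by fun_prop) (by fun_prop) (by fun_prop))))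

theorem measurableSet_cell_meets (hK : IsClosed K) (hA : Fs fun w => w ∈ A) :
    MeasurableSet {q : (C(ℂ × ℂ, ℝ) × Conf ℂ) × ℂ |
      (cell K (curry q.1.1) (pts q.1.2) q.2 ∩ A).Nonempty} :=
  measurableSet_of_Fs (p := fun d P (z : ℂ) => (cell K (curry d) P z ∩ A).Nonempty) fun _ =>
    Fs.exists ((Fs.of_isClosed
      (isClosed_mem_cell hK (by fun_prop) (by fun_prop) (by fun_prop) (by fun_prop))).and
        (hA.comp continuous_snd))

theorem measurableSet_cell_subset (hK : IsClosed K) (hA : Gd fun w => w ∈ A) :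
    MeasurableSet {q : (C(ℂ × ℂ, ℝ) × Conf ℂ) × ℂ | cell K (curry q.1.1) (pts q.1.2) q.2 ⊆ A} :=
  measurableSet_of_Gd (p := fun d P (z : ℂ) => cell K (curry d) P z ⊆ A) fun _ =>
    Gd.forall (Gd.imp (Fs.of_isClosed
      (isClosed_mem_cell hK (by fun_prop) (by fun_prop) (by fun_prop) (by fun_prop)))
        (hA.comp continuous_snd))

theorem measurable_ediam_cell (hK : IsClosed K) :
    Measurable fun q : (C(ℂ × ℂ, ℝ) × Conf ℂ) × ℂ =>
      ediam (cell K (curry q.1.1) (pts q.1.2) q.2) := by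
  refine measurable_of_Iic fun t => ?_
  simp only [preimage, mem_Iic, ediam_le_iff]
  exact measurableSet_of_Gd (p := fun d P (z : ℂ) =>
    ∀ v ∈ cell K (curry d) P z, ∀ w ∈ cell K (curry d) P z, edist v w ≤ t) fun _ =>
    Gd.forall (Gd.imp (Fs.of_isClosed
      (isClosed_mem_cell hK (by fun_prop) (by fun_prop) (by fun_prop) (by fun_prop)))
      (Gd.forall (Gd.imp (Fs.of_isClosed
        (isClosed_mem_cell hK (by fun_prop) (by fun_prop) (by fun_prop) (by fun_prop)))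
        (Gd.of_isClosed (isClosed_le (by fun_prop) continuous_const)))))

theorem measurableSet_gloc (hK : Fs fun w => w ∈ K) (r : ℝ) :
    MeasurableSet {q : C(ℂ × ℂ, ℝ) × Conf ℂ | GLoc (curry q.1) (pts q.2) K r} := by
  refine measurableSet_of_Gd' (p := fun d P => GLoc (curry d) P K r) fun n => ?_
  simp only [GLoc, exists_range_iff, curry_apply]
  exact Gd.forall (Gd.imp (hK.comp continuous_snd) (Gd.forall (Gd.imp
    (Fs.eq (by fun_prop) continuous_const)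
    (Gd.exists_finite fun i => Gd.lt (by fun_prop) (by fun_prop)))))

/-- The local Voronoi structure is a measurable function of the metric and the points. -/
theorem mfc_lfc (hK : IsClosed K) :
    MFC (fun q : C(ℂ × ℂ, ℝ) × Conf ℂ => q.2) fun q => lfc K (curry q.1) (pts q.2) where
  V := by simpa only [lfc, dif_pos (pts_finite _)] using mset_pts measurable_snd
  touch := (by fun_prop : Measurable fun q : ((C(ℂ × ℂ, ℝ) × Conf ℂ) × ℂ) × ℂ =>
    (q.1.1, q.1.2, q.2)) (measurableSet_touch hK)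
  diam := (measurable_ediam_cell hK).ennreal_toReal

end meas

/-! ### agreement with the true structure -/

/-- `N` and `N'` agree at the centres in `A` -/
structure SameOn (N N' : FC) (A : Set ℂ) : Prop where
  pts : N.pts A = N'.pts A
  nbr : ∀ x ∈ A, N.G.N x = N'.G.N x
  H : ∀ x ∈ A, N.H x = N'.H x

namespace SameOn

variable {N N' : FC} (h : SameOn N N' A)
include h

theorem mono {B : Set ℂ} (hB : B ⊆ A) : SameOn N N' B where
  pts := by
    ext x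
    have := Finset.ext_iff.1 h.pts x
    simp only [FC.mem_pts] at this ⊢
    exact ⟨fun hx => ⟨(this.1 ⟨hx.1, hB hx.2⟩).1, hx.2⟩, fun hx => ⟨(this.2 ⟨hx.1, hB hx.2⟩).1, hx.2⟩⟩
  nbr x hx := h.nbr x (hB hx)
  H x hx := h.H x (hB hx)

theorem nu (p : ℂ) : N.nu A p = N'.nu A p := by
  rw [FC.nu, FC.nu, h.pts]
  exact Net.nu_congr_net (fun x hx => h.nbr x (N'.mem_pts.1 hx).2) _

theorem en (u v : ℂ → ℝ) : N.G.en (N.pts A) u v = N'.G.en (N'.pts A) u v := by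
  rw [h.pts]
  exact Net.en_congr_net (fun x hx => h.nbr x (N'.mem_pts.1 hx).2) _ _

theorem X : N.X A = N'.X A := by rw [FC.X, FC.X, h.en, h.en]

theorem Y : N.Y A = N'.Y A := by
  rw [FC.Y, FC.Y, h.pts]
  exact Finset.sum_congr rfl fun x hx => by rw [h.H x (N'.mem_pts.1 hx).2]

theorem deg (hx : x ∈ A) : N.G.deg x = N'.G.deg x := by rw [Net.deg, Net.deg, h.nbr x hx]

theorem sum_deg : ∑ x ∈ N.pts A, N.G.deg x = ∑ x ∈ N'.pts A, N'.G.deg x := by
  rw [h.pts]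
  exact Finset.sum_congr rfl fun x hx => h.deg (N'.mem_pts.1 hx).2

end SameOn

/-- On the shielded event the true Voronoi structure at the centres in `A` is the local one. -/
theorem Win.sameOn' (W : Win S D T U K r) (hP : P ⊆ S) (g : GLoc D P K r) (hf : (P ∩ U).Finite)
    {C : Cells} (hV : C.V = P) (hH : ∀ x, C.H x = cell S D P x)
    (hf₀ : {x | x ∈ C.V ∧ (C.H x ∩ K₀).Nonempty}.Finite) (hA : ∀ x ∈ A, closedBall x r ⊆ K)
    (hA₀ : ∀ x ∈ A, x ∈ P → C.H x ⊆ K₀) : SameOn (C.toFC K₀) (lfc K T (P ∩ U)) A := by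
  simp only [hH] at hA₀
  have hv : ∀ x ∈ A, x ∈ (C.toFC K₀).V ↔ x ∈ (lfc K T (P ∩ U)).V := fun x hx => by
    rw [mem_toFC hf₀, mem_lfc hf, hV, hH]
    exact ⟨fun h => ⟨h.1, W.memU (hA x hx (mem_closedBall_self W.pos.le))⟩, fun h =>
      ⟨h.1, x, W.geo.self_mem_cell hP (hP h.1), hA₀ x hx h.1 (W.geo.self_mem_cell hP (hP h.1))⟩⟩
  refine ⟨?_, fun x hx => ?_, fun x hx => (hH x).trans (W.cell_eq hP g (hA x hx)).symm⟩
  · ext x
    simp only [FC.mem_pts]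
    exact and_congr_left fun hx => hv x hx
  · ext y
    have key := W.touch_iff (y := y) hP g (hA x hx)
    rw [FC.mem_N, FC.mem_N, hv x hx, mem_toFC hf₀, mem_lfc (x := y) hf, lfc_H, hV,
      show (C.toFC K₀).H = C.H from rfl, hH, hH]
    constructor
    · rintro ⟨h1, h2, h3, h4⟩
      exact ⟨(key.2 ⟨h1.1, h4⟩).1, h2, h3, (key.2 ⟨h1.1, h4⟩).2⟩
    · rintro ⟨h1, h2, h3, h4⟩
      obtain ⟨h5, v, v1, v2⟩ := key.1 ⟨h1, h4⟩
      exact ⟨⟨h5, v, v2, hA₀ x hx ((mem_lfc hf).1 h2).1 v1⟩, h2, h3, v, v1, v2⟩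

theorem Win.sameOn (W : Win S D T U K r) (hP : P ⊆ S) (g : GLoc D P K r) (hf : (P ∩ U).Finite)
    {C : Cells} (hV : C.V = P) (hH : ∀ x, C.H x = cell S D P x)
    (hf₀ : {x | x ∈ C.V ∧ (C.H x ∩ K₀).Nonempty}.Finite) (hA : ∀ x ∈ A, closedBall x r ⊆ K)
    (hA₀ : ∀ x ∈ A, Metric.ball x r ⊆ K₀) : SameOn (C.toFC K₀) (lfc K T (P ∩ U)) A :=
  W.sameOn' hP g hf hV hH hf₀ hA fun x hx _ =>
    hH x ▸ (g.cell_subset W.geo hP W.pos W.ballS (hA x hx)).trans (hA₀ x hx)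

/-- every shielded centre has a neighbour in the local structure -/
theorem Win.one_le_deg (W : Win S D T U K r) (hP : P ⊆ S) (g : GLoc D P K r)
    (hf : (P ∩ U).Finite) (hx : closedBall x r ⊆ K) (hxP : x ∈ P) :
    1 ≤ (lfc K T (P ∩ U)).G.deg x := by
  have hsub : Metric.ball x (2 * r) ⊆ U := fun z hz => by
    refine W.ball (midpoint ℝ x z) (hx ?_) ?_
    · rw [mem_closedBall, dist_midpoint_left, dist_comm]
      norm_num
      linarith [mem_ball.1 hz]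
    · rw [mem_closedBall, dist_right_midpoint, dist_comm]
      norm_num
      linarith [mem_ball.1 hz]
  obtain ⟨y, hy, hne, ht⟩ := g.exists_touch W.geo hP W.pos W.ballS hx
    (hf.subset (inter_subset_inter_right _ hsub))
  have key := (W.touch_iff hP g hx).2 ⟨hy, ht⟩
  have : y ∈ (lfc K T (P ∩ U)).G.N x := (FC.mem_N _).2 ⟨(mem_lfc hf).2 key.1,
    (mem_lfc hf).2 ⟨hxP, W.memU (hx (mem_closedBall_self W.pos.le))⟩, hne.symm, key.2⟩
  exact Nat.one_le_cast.2 (Finset.card_pos.2 ⟨y, this⟩)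

/-! ### covariance -/

/-- `N'` is the pull-back of `N` by `φ` -/
structure Pull (φ : ℂ ≃ ℂ) (N' N : FC) : Prop where
  V : ∀ x, x ∈ N'.V ↔ φ x ∈ N.V
  H : ∀ x, N'.H x = φ ⁻¹' N.H (φ x)

theorem pull_lfc (φ : ℂ ≃ ℂ) (K : Set ℂ) (T : ℂ → ℂ → ℝ) (P : Set ℂ) :
    Pull φ (lfc (φ ⁻¹' K) (fun a b => T (φ a) (φ b)) (φ ⁻¹' P)) (lfc K T P) where
  V x := by
    by_cases hP : P.Finite
    · rw [mem_lfc hP, mem_lfc (hP.preimage φ.injective.injOn), mem_preimage]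
    · have : ¬ (φ ⁻¹' P).Finite := fun h => hP (φ.image_preimage P ▸ h.image φ)
      simp [lfc, hP, this]
  H x := by rw [lfc_H, lfc_H, cell_preimage, φ.image_preimage]

theorem pull_toFC (φ : ℂ ≃ ℂ) {C' C : Cells} (hV : C'.V = φ ⁻¹' C.V)
    (hH : ∀ x, C'.H x = φ ⁻¹' C.H (φ x)) (K₀ : Set ℂ) :
    Pull φ (C'.toFC (φ ⁻¹' K₀)) (C.toFC K₀) where
  V x := by
    have e : {x | x ∈ C'.V ∧ (C'.H x ∩ φ ⁻¹' K₀).Nonempty} =
        φ ⁻¹' {x | x ∈ C.V ∧ (C.H x ∩ K₀).Nonempty} := by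
      ext z
      simp only [mem_ofPred_eq, mem_preimage, hV, hH, ← preimage_inter,
        φ.surjective.nonempty_preimage]
    by_cases hP : {x | x ∈ C.V ∧ (C.H x ∩ K₀).Nonempty}.Finite
    · rw [mem_toFC hP, mem_toFC (e ▸ hP.preimage φ.injective.injOn)]
      exact Set.ext_iff.1 e x
    · have : ¬ {x | x ∈ C'.V ∧ (C'.H x ∩ φ ⁻¹' K₀).Nonempty}.Finite := fun h =>
        hP (φ.image_preimage {x | x ∈ C.V ∧ (C.H x ∩ K₀).Nonempty} ▸ (e ▸ h).image φ)
      simp [Cells.toFC, hP, this]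
  H := hH

namespace Pull

variable {φ : ℂ ≃ ℂ} {N' N : FC} (h : Pull φ N' N)
include h

theorem mem_N : φ y ∈ N.G.N (φ x) ↔ y ∈ N'.G.N x := by
  simp only [FC.mem_N, h.V, h.H, ← preimage_inter, φ.surjective.nonempty_preimage, ne_eq,
    φ.injective.eq_iff]

theorem locIso (F : Finset ℂ) : Net.LocIso N'.G N.G φ F where
  inj := φ.injective.injOn
  nbr x _ := by
    ext y
    obtain ⟨y, rfl⟩ := φ.surjective y
    rw [h.mem_N, φ.injective.mem_finset_image]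

theorem pts (A : Set ℂ) : N.pts A = (N'.pts (φ ⁻¹' A)).image φ := by
  ext y
  obtain ⟨y, rfl⟩ := φ.surjective y
  rw [φ.injective.mem_finset_image, FC.mem_pts, FC.mem_pts, h.V, mem_preimage]

theorem deg (x : ℂ) : N.G.deg (φ x) = N'.G.deg x :=
  (h.locIso {x}).deg_eq (Finset.mem_singleton_self x)

theorem sum_pts (A : Set ℂ) (f : ℂ → ℝ) :
    ∑ x ∈ N.pts A, f x = ∑ x ∈ N'.pts (φ ⁻¹' A), f (φ x) := by
  rw [h.pts, Finset.sum_image φ.injective.injOn]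

theorem sum_deg (A : Set ℂ) :
    ∑ x ∈ N.pts A, N.G.deg x = ∑ x ∈ N'.pts (φ ⁻¹' A), N'.G.deg x := by
  simp only [h.sum_pts, h.deg]

theorem en (A : Set ℂ) (u v : ℂ → ℝ) :
    N.G.en (N.pts A) u v = N'.G.en (N'.pts (φ ⁻¹' A)) (u ∘ φ) (v ∘ φ) := by
  rw [h.pts, (h.locIso _).en_eq]

theorem net_nu (A : Set ℂ) (u : ℂ → ℝ) :
    N.G.nu (N.pts A) u = N'.G.nu (N'.pts (φ ⁻¹' A)) (u ∘ φ) := by
  rw [h.pts, (h.locIso _).nu_eq]

variable {a b : ℂ} (hφ : ∀ z, φ z = a * z + b)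
include hφ

theorem nu (A : Set ℂ) (p : ℂ) : N.nu A p = N'.nu (φ ⁻¹' A) (conj a * p) := by
  rw [FC.nu, FC.nu, h.net_nu, ← N'.G.nu_add_const _ (lin (conj a * p)) (lin p b)]
  congr 1
  funext z
  simp [lin, hφ]
  ring

theorem X (A : Set ℂ) : N.X A = ‖a‖ ^ 2 * N'.X (φ ⁻¹' A) := by
  rw [FC.X, FC.X, h.en, h.en, Complex.sq_norm, Complex.normSq_apply]
  simp only [Net.en, ← mul_add, ← Finset.sum_add_distrib, Finset.mul_sum]
  refine Finset.sum_congr rfl fun x _ => Finset.sum_congr rfl fun y _ => ?_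
  simp [hφ]
  ring

theorem diam (x : ℂ) : Metric.diam (N.H (φ x)) = ‖a‖ * Metric.diam (N'.H x) := by
  have e : N.H (φ x) = (fun z => z + b) '' (a • N'.H x) := by
    rw [← φ.image_preimage (N.H (φ x)), ← h.H, ← image_smul, image_image]
    exact image_congr fun z _ => hφ z
  rw [e, (isometry_add_right b).diam_image, diam_smul₀]

theorem Y (A : Set ℂ) : N.Y A = ‖a‖ ^ 2 * N'.Y (φ ⁻¹' A) := by
  simp only [FC.Y, h.sum_pts, h.diam hφ, mul_pow, Finset.mul_sum]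

end Pull

theorem gloc_pull {φ : ℂ ≃ ℂ} {a b : ℂ} (hφ : ∀ z, φ z = a * z + b) :
    GLoc (fun u v => T (φ u) (φ v)) (φ ⁻¹' P) (φ ⁻¹' K) r ↔ GLoc T P K (‖a‖ * r) := by
  have ha : ‖a‖ ≠ 0 := fun h0 => by
    have := φ.injective (a₁ := 0) (a₂ := 1) (by rw [hφ, hφ, norm_eq_zero.1 h0]; simp)
    exact zero_ne_one this
  have e : ∀ u w, dist (φ u) (φ w) = ‖a‖ * dist u w := fun u w => by
    rw [hφ, hφ, dist_add_right, dist_eq_norm, ← mul_sub, norm_mul, dist_eq_norm]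
  refine ⟨fun g w hw u hu => ?_, fun g w hw u hu => ?_⟩
  · obtain ⟨w, rfl⟩ := φ.surjective w
    obtain ⟨u, rfl⟩ := φ.surjective u
    rw [e, mul_right_inj' ha] at hu
    obtain ⟨y, hy, hlt⟩ := g w hw u hu
    exact ⟨φ y, hy, hlt⟩
  · obtain ⟨y, hy, hlt⟩ := g (φ w) hw (φ u) (by rw [e, hu])
    obtain ⟨y, rfl⟩ := φ.surjective y
    exact ⟨y, hy, hlt⟩

end LQ.Met
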