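import Pool.Agent.Lib.MP_0d9445_pr.Met.Local
import Pool.Agent.Lib.MP_0d9445_pr.Cell.Vor

/-!
The Voronoi structure of a length metric near a shielded set is read off the local part of the
metric and the points in the window.
-/

set_option autoImplicit false

open Set Filter Topology Metric Pool.Agent.Lib.MP_0d9445_pr Pool.Agent.Lib.MP_0d9445_pr.Cell

namespace LQ.Met

variable {D D' T : ℂ → ℂ → ℝ} {S P P' U K : Set ℂ} {r : ℝ} {w x y : ℂ}

theorem nearGeo (h : IsMet D) (hl : IsLen D) : NearGeo univ D where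
  self x _ := h.self x
  symm x _ y _ := h.symm x y
  tri x _ y _ z _ := h.tri x y z
  pos _ _ _ _ hne := h.pos hne
  cont := h.cont.continuousOn
  geo x _ y _ ε hε := by
    obtain ⟨L, Q, u, hL⟩ := hl.exists_UP h x y hε
    refine ⟨Q '' Icc 0 L, subset_univ _, isPreconnected_Icc.image _ u.cont,
      ⟨0, ⟨le_rfl, u.nonneg⟩, u.src⟩, ⟨L, ⟨u.nonneg, le_rfl⟩, u.tgt⟩, ?_⟩
    rintro _ ⟨t, ht, rfl⟩
    linarith [u.le_left h ht, u.le_right h ht]

theorem notMem_cell_iff (hw : w ∈ S) : w ∉ cell S D P x ↔ ∃ y ∈ P, D w y < D w x := by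
  simp [cell, hw]

/-- Every point of `K` sees a point of `P` that is strictly closer than any given point of the
circle of radius `r` around it. -/
def GLoc (T : ℂ → ℂ → ℝ) (P K : Set ℂ) (r : ℝ) : Prop :=
  ∀ w ∈ K, ∀ u, dist u w = r → ∃ y ∈ P, T w y < T w u

/-- `T` is the local part of `D` on the closure of `U` -/
def Agree (T D : ℂ → ℂ → ℝ) (U : Set ℂ) : Prop :=
  ∀ x ∈ closure U, ∀ y ∈ closure U, T x y = min (D x y) (dFr D U x)

theorem agree_Tp {p : C(ℂ, ℂ)} (hK : IsCompact (frontier U)) (hp : ∀ x ∈ closure U, p x = x)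
    (D : C(ℂ × ℂ, ℝ)) : Agree (Function.curry (Tp p hK D)) (Function.curry D) U := by
  intro x hx y hy
  rw [Function.curry_apply, Tp_apply, hp x hx, hp y hy]
  rfl

theorem agree_TU (h : IsMet D) (hl : IsLen D) (hU : IsOpen U) : Agree (TU D U) D U :=
  fun x hx y _ => by rw [dFr_eq_dOut h hl hU hx, TU]

theorem Agree.eq_TU (a : Agree T D U) (h : IsMet D) (hl : IsLen D) (hU : IsOpen U)
    (hx : x ∈ closure U) (hy : y ∈ closure U) : T x y = TU D U x y := by
  rw [a x hx y hy, dFr_eq_dOut h hl hU hx, TU]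

theorem GLoc.mono {K' : Set ℂ} (h : GLoc T P K r) (hK : K' ⊆ K) (hP : P ⊆ P') :
    GLoc T P' K' r := fun w hw u hu =>
  (h w (hK hw) u hu).imp fun _ hy => ⟨hP hy.1, hy.2⟩

theorem gloc_iff_notMem_cell (hK : K ⊆ S) :
    GLoc D P K r ↔ ∀ w ∈ K, ∀ u, dist u w = r → w ∉ cell S D P u :=
  forall₂_congr fun _ hw => by simp only [notMem_cell_iff (hK hw)]

theorem gloc_const_mul {c : ℝ} (hc : 0 < c) :
    GLoc (fun a b => c * T a b) P K r ↔ GLoc T P K r := by
  simp only [GLoc, mul_lt_mul_iff_right₀ hc]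

/-- A barrier on the frontier of `V` shields the points of `V`. -/
theorem shield_of_barrier (h : NearGeo S D) (hP : P ⊆ S) {V : Set ℂ} (hV : IsOpen V)
    (hc : IsCompact (closure V ∩ S)) (hwS : w ∈ S) (hw : w ∈ V) {u : ℂ} (huS : u ∈ S) (hu : u ∉ V)
    (hb : ∀ v ∈ frontier V, v ∈ S → ∃ y ∈ P, D v y < D v u) : ∃ y ∈ P, D w y < D w u := by
  obtain ⟨v, v1, v2, v3, e⟩ := h.exit hV hc hwS huS hw hu
  obtain ⟨y, hy, hlt⟩ := hb v (by rw [hV.frontier_eq]; exact ⟨v2, v3⟩) v1
  exact ⟨y, hy, by linarith [h.tri w hwS v v1 y (hP hy)]⟩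

namespace GLoc

variable (h : NearGeo S D) (hP : P ⊆ S) (hr : 0 < r) (hS : ∀ w ∈ K, closedBall w r ⊆ S)
  (g : GLoc D P K r)
include h hr hS g

theorem exists_forall (hw : w ∈ K) : ∃ y ∈ P, ∀ v ∈ S, r ≤ dist v w → D w y < D w v := by
  have hwS := hS w hw (mem_closedBall_self hr.le)
  obtain ⟨u, hu, hmin⟩ := (isCompact_sphere w r).exists_isMinOn (f := D w)
    (NormedSpace.sphere_nonempty.2 hr.le)
    ((h.contOn_right hwS).mono (sphere_subset_closedBall.trans (hS w hw)))
  obtain ⟨y, hy, hlt⟩ := g w hw u hu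
  refine ⟨y, hy, fun v hv hvr => ?_⟩
  obtain ⟨z, z1, z2, z3⟩ := h.exit_ball (c := w) (r := r)
    (by rw [inter_eq_left.2 (hS w hw)]; exact isCompact_closedBall w r) hwS hv
    (by rwa [dist_self]) hvr
  linarith [h.nonneg z1 hv, show D w u ≤ D w z from hmin z2]

/-- the centre of a cell through a point of `K` is near -/
theorem dist_lt (hw : w ∈ K) (hx : x ∈ S) (hc : w ∈ cell S D P x) : dist x w < r := by
  obtain ⟨y, hy, hlt⟩ := g.exists_forall h hr hS hw
  exact not_le.1 fun hh => (hlt x hx hh).not_ge (hc.2 y hy)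

include hP

theorem exists_mem_ball (hw : w ∈ K) : ∃ y ∈ P, y ∈ ball w r := by
  obtain ⟨y, hy, hlt⟩ := g.exists_forall h hr hS hw
  exact ⟨y, hy, not_le.1 fun hh => lt_irrefl _ (hlt y (hP hy) hh)⟩

theorem exists_mem_cell (hw : w ∈ K) (hf : (P ∩ ball w r).Finite) :
    ∃ x ∈ P, x ∈ ball w r ∧ w ∈ cell S D P x := by
  obtain ⟨y, hy, hlt⟩ := g.exists_forall h hr hS hw
  obtain ⟨x, hx, hc⟩ := NearGeo.exists_mem_cell (D := D) (hS w hw (mem_closedBall_self hr.le)) hy
    (hf.subset fun q hq => ⟨hq.1, not_le.1 fun hh => (hlt q (hP hq.1) hh).not_ge hq.2⟩)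
  exact ⟨x, hx, g.dist_lt h hr hS hw (hP hx) hc, hc⟩

variable (hx : closedBall x r ⊆ K)
include hx

theorem cell_subset : cell S D P x ⊆ ball x r := by
  have hxS := hS x (hx (mem_closedBall_self hr.le))
  intro v hv
  by_contra hvr
  obtain ⟨z, z1, z2, -⟩ := h.exit_cell_ball hP (c := x) (r := r)
    (by rw [inter_eq_left.2 hxS]; exact isCompact_closedBall x r)
    (hxS (mem_closedBall_self hr.le)) hv (by rwa [dist_self]) (not_lt.1 hvr)
  have := g.dist_lt h hr hS (hx z2.le) (hxS (mem_closedBall_self hr.le)) z1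
  rw [dist_comm] at this
  exact this.ne z2

theorem isCompact_cell : IsCompact (cell S D P x) := by
  have hxS := hS x (hx (mem_closedBall_self hr.le))
  exact h.isCompact_cell hP (hxS (mem_closedBall_self hr.le))
    (by rw [inter_eq_left.2 hxS]; exact isCompact_closedBall x r)
    ((g.cell_subset h hP hr hS hx).trans ball_subset_closedBall)

theorem isPreconnected_cell : IsPreconnected (cell S D P x) := by
  have hxS := hS x (hx (mem_closedBall_self hr.le))
  exact h.isPreconnected_cell hP (hxS (mem_closedBall_self hr.le)) isOpen_ball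
    (by rw [closure_ball x hr.ne', inter_eq_left.2 hxS]; exact isCompact_closedBall x r)
    (g.cell_subset h hP hr hS hx)

/-- neighbours are near -/
theorem dist_lt_of_touch (hy : y ∈ S) (ht : (cell S D P x ∩ cell S D P y).Nonempty) :
    dist y x < 2 * r := by
  obtain ⟨v, v1, v2⟩ := ht
  have h1 := g.cell_subset h hP hr hS hx v1
  have h2 := g.dist_lt h hr hS (hx (ball_subset_closedBall h1)) hy v2
  linarith [dist_triangle y v x, mem_ball.1 h1]

/-- every shielded point has a neighbour -/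
theorem exists_touch (hf : (P ∩ ball x (2 * r)).Finite) :
    ∃ y ∈ P, y ≠ x ∧ (cell S D P x ∩ cell S D P y).Nonempty := by
  have hxS := hS x (hx (mem_closedBall_self hr.le))
  have hs := g.cell_subset h hP hr hS hx
  have hcl : ∀ y ∈ S, IsClosed (closedBall x r ∩ cell S D P y) := fun y hy =>
    (h.isCompact_inter_cell hP hy (isCompact_closedBall x r) hxS).isClosed
  have hB : IsClosed (⋃ y ∈ (P ∩ ball x (2 * r)) \ {x}, closedBall x r ∩ cell S D P y) :=
    (hf.subset sdiff_subset).isClosed_biUnion fun y hy => hcl y (hP hy.1.1)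
  have hcov : ∀ v ∈ closedBall x r, v ∉ closedBall x r ∩ cell S D P x →
      v ∈ ⋃ y ∈ (P ∩ ball x (2 * r)) \ {x}, closedBall x r ∩ cell S D P y := fun v hv hvx => by
    have hsub : ball v r ⊆ ball x (2 * r) := fun z hz => by
      rw [mem_ball] at hz ⊢
      linarith [dist_triangle z v x, mem_closedBall.1 hv]
    obtain ⟨y, hy, hyb, hc⟩ := g.exists_mem_cell h hP hr hS (hx hv)
      (hf.subset (inter_subset_inter_right _ hsub))
    exact mem_biUnion (x := y) ⟨⟨hy, hsub hyb⟩, fun e => hvx ⟨hv, mem_singleton_iff.1 e ▸ hc⟩⟩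
      ⟨hv, hc⟩
  obtain ⟨u, hu⟩ : (sphere x r).Nonempty := NormedSpace.sphere_nonempty.2 hr.le
  obtain ⟨v, -, v1, v2⟩ := isPreconnected_closed_iff.1 (convex_closedBall x r).isPreconnected
    _ _ (hcl x (hxS (mem_closedBall_self hr.le))) hB
    (fun v hv => or_iff_not_imp_left.2 (hcov v hv))
    ⟨x, mem_closedBall_self hr.le, mem_closedBall_self hr.le,
      h.self_mem_cell hP (hxS (mem_closedBall_self hr.le))⟩
    ⟨u, sphere_subset_closedBall hu, hcov u (sphere_subset_closedBall hu) fun hh =>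
      (mem_ball.1 (hs hh.2)).ne hu⟩
  obtain ⟨y, hy, v3⟩ := mem_iUnion₂.1 v2
  exact ⟨y, hy.1.1, hy.2, v, v1.2, v3.2⟩

end GLoc

/-- The data of a window: `U` is a bounded open set with closure in `S`, `T` is the local part of
`D` in `U`, and the closed discs of radius `r` around the points of `K` lie in `U`. -/
structure Win (S : Set ℂ) (D T : ℂ → ℂ → ℝ) (U K : Set ℂ) (r : ℝ) : Prop where
  geo : NearGeo S D
  isOpen : IsOpen U
  bdd : Bornology.IsBounded U
  sub : closure U ⊆ S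
  agree : Agree T D U
  pos : 0 < r
  ball : ∀ w ∈ K, closedBall w r ⊆ U

namespace Win

variable (W : Win S D T U K r)
include W

theorem ballS : ∀ w ∈ K, closedBall w r ⊆ S := fun w hw =>
  (W.ball w hw).trans (subset_closure.trans W.sub)

theorem memU (hw : w ∈ K) : w ∈ U := W.ball w hw (mem_closedBall_self W.pos.le)

theorem memS (hw : w ∈ U) : w ∈ S := W.sub (subset_closure hw)

theorem dFr_le (hw : w ∈ U) (hy : y ∈ S) (hyU : y ∉ U) : dFr D U w ≤ D w y := by
  obtain ⟨z, z1, z2, z3, z4⟩ := W.geo.exit W.isOpen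
    (by rw [inter_eq_left.2 W.sub]; exact W.bdd.isCompact_closure) (W.memS hw) hy hw hyU
  have : dFr D U w ≤ D w z := csInf_le ⟨0, by
    rintro _ ⟨v, hv, rfl⟩
    exact W.geo.nonneg (W.memS hw) (W.sub (frontier_subset_closure hv))⟩
    ⟨z, by rw [W.isOpen.frontier_eq]; exact ⟨z2, z3⟩, rfl⟩
  linarith [W.geo.nonneg z1 hy]

theorem exists_eq_dFr (hw : w ∈ U) : ∃ u ∈ frontier U, dFr D U w = D w u :=
  (W.bdd.isCompact_closure.of_isClosed_subset isClosed_frontier
    frontier_subset_closure).exists_sInf_image_eq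
    (nonempty_frontier_iff.2 ⟨⟨w, hw⟩, fun h => NormedSpace.unbounded_univ ℝ ℂ (h ▸ W.bdd)⟩)
    ((W.geo.contOn_right (W.memS hw)).mono (frontier_subset_closure.trans W.sub))

theorem exists_lt_dFr (g : GLoc D P K r) (hw : w ∈ K) : ∃ y ∈ P, D w y < dFr D U w ∧
    ∀ v ∈ S, r ≤ dist v w → D w y < D w v := by
  obtain ⟨y, hy, hlt⟩ := g.exists_forall W.geo W.pos W.ballS hw
  obtain ⟨u, hu, e⟩ := W.exists_eq_dFr (W.memU hw)
  refine ⟨y, hy, e ▸ hlt u (W.sub (frontier_subset_closure hu)) ?_, hlt⟩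
  rw [W.isOpen.frontier_eq] at hu
  exact not_lt.1 fun hh => hu.2 (W.ball w hw hh.le)

/-- `GLoc` is local. -/
theorem gloc_iff (hP : P ⊆ S) : GLoc T (P ∩ U) K r ↔ GLoc D P K r := by
  refine ⟨fun g w hw u hu => ?_, fun g w hw u hu => ?_⟩
  · obtain ⟨y, hy, hlt⟩ := g w hw u hu
    have hw' := subset_closure (W.memU hw)
    rw [W.agree w hw' y (subset_closure hy.2),
      W.agree w hw' u (subset_closure (W.ball w hw hu.le)), lt_min_iff, min_lt_iff, min_lt_iff,
      or_iff_left (lt_irrefl _)] at hlt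
    refine ⟨y, hy.1, hlt.1.elim id fun hh => hlt.2.trans hh⟩
  · obtain ⟨y, hy, h1, h2⟩ := W.exists_lt_dFr g hw
    have hw' := subset_closure (W.memU hw)
    have hyU : y ∈ U := by
      by_contra hh
      exact h1.not_ge (W.dFr_le (W.memU hw) (hP hy) hh)
    refine ⟨y, ⟨hy, hyU⟩, ?_⟩
    rw [W.agree w hw' y (subset_closure hyU), W.agree w hw' u (subset_closure (W.ball w hw hu.le))]
    exact (min_le_left _ _).trans_lt (lt_min (h2 u (W.ballS w hw hu.le) hu.ge) h1)

variable (hP : P ⊆ S) (g : GLoc D P K r)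
include hP g

/-- membership of a point of `K` in a cell is local -/
theorem mem_cell (hw : w ∈ K) (hx : x ∈ closure U) :
    w ∈ cell K T (P ∩ U) x ↔ w ∈ cell S D P x := by
  obtain ⟨y, hy, hlt, -⟩ := W.exists_lt_dFr g hw
  have hw' := subset_closure (W.memU hw)
  rw [mem_cell_iff_local (U := U) (d := dFr D U w) (W.sub hw')
    (fun p hp hpU => W.dFr_le (W.memU hw) (hP hp) hpU) ⟨y, hy, hlt⟩ x]
  simp only [cell, mem_ofPred_eq, hw, true_and]
  exact forall₂_congr fun p hp => by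
    rw [W.agree w hw' x hx, W.agree w hw' p (subset_closure hp.2)]

theorem cell_eq_inter (hx : x ∈ closure U) : cell K T (P ∩ U) x = cell S D P x ∩ K := by
  ext w
  exact ⟨fun hw => ⟨(W.mem_cell hP g hw.1 hx).1 hw, hw.1⟩,
    fun hw => (W.mem_cell hP g hw.2 hx).2 hw.1⟩

theorem cell_eq (hx : closedBall x r ⊆ K) : cell K T (P ∩ U) x = cell S D P x := by
  rw [W.cell_eq_inter hP g (subset_closure (W.memU (hx (mem_closedBall_self W.pos.le)))),
    inter_eq_left]
  exact (g.cell_subset W.geo hP W.pos W.ballS hx).trans (ball_subset_closedBall.trans hx)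

omit hP in
/-- the centre of a cell that meets `K` lies in the window -/
theorem mem_window (hw : w ∈ K) (hx : x ∈ S) (hc : w ∈ cell S D P x) : x ∈ U :=
  W.ball w hw (g.dist_lt W.geo W.pos W.ballS hw hx hc).le

/-- The neighbours of a shielded point are read off the local data. -/
theorem touch_iff (hx : closedBall x r ⊆ K) :
    (y ∈ P ∩ U ∧ (cell K T (P ∩ U) x ∩ cell K T (P ∩ U) y).Nonempty) ↔
      y ∈ P ∧ (cell S D P x ∩ cell S D P y).Nonempty := by
  have hs := (g.cell_subset W.geo hP W.pos W.ballS hx).trans (ball_subset_closedBall.trans hx)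
  rw [W.cell_eq hP g hx]
  constructor
  · rintro ⟨h2, v, v1, v2⟩
    exact ⟨h2.1, v, v1, (W.mem_cell hP g v2.1 (subset_closure h2.2)).1 v2⟩
  · rintro ⟨h2, v, v1, v2⟩
    have hyU := W.mem_window g (hs v1) (hP h2) v2
    exact ⟨⟨h2, hyU⟩, v, v1, (W.mem_cell hP g (hs v1) (subset_closure hyU)).2 v2⟩

end Win

end LQ.Met
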