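import Mathlib

/-!
The Borel sigma-algebra of a space of continuous maps is generated by the evaluations; measurable
versions of random continuous maps; `Gδ` and `Fσ` predicates.
-/

set_option autoImplicit false

open Set MeasureTheory Filter Topology TopologicalSpace

namespace LQ.Met

section cmap

variable {A W : Type*} [TopologicalSpace A] [SecondCountableTopology A] [LocallyCompactSpace A]
  [MetricSpace W] [CompleteSpace W] [SecondCountableTopology W] [MeasurableSpace W] [BorelSpace W]
  [MeasurableSpace C(A, W)] [BorelSpace C(A, W)]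

theorem measurableEmbedding_evalOn {Q : Set A} (hc : Q.Countable) (hQ : Dense Q) :
    MeasurableEmbedding fun (F : C(A, W)) (q : Q) => F q := by
  have := hc.to_subtype
  refine Continuous.measurableEmbedding (by fun_prop) fun F G h => ?_
  exact DFunLike.coe_injective (Continuous.ext_on hQ F.continuous G.continuous fun q hq =>
    congrFun h ⟨q, hq⟩)

omit [SecondCountableTopology A] [LocallyCompactSpace A] [CompleteSpace W]
  [SecondCountableTopology W] in
theorem measurable_eval (a : A) : Measurable fun F : C(A, W) => F a :=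
  (continuous_eval_const a).measurable

theorem measurable_of_evalOn {α : Type*} {m : MeasurableSpace α} {Q : Set A} (hc : Q.Countable)
    (hQ : Dense Q) {F : α → C(A, W)} (h : ∀ q ∈ Q, Measurable fun ω => F ω q) : Measurable F :=
  (measurableEmbedding_evalOn hc hQ).measurable_comp_iff.1
    (measurable_pi_lambda _ fun q => h q q.2)

theorem measurable_iff_eval {α : Type*} {m : MeasurableSpace α} {F : α → C(A, W)} :
    Measurable F ↔ ∀ a, Measurable fun ω => F ω a := by
  obtain ⟨Q, hc, hQ⟩ := exists_countable_dense A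
  exact ⟨fun h a => (measurable_eval a).comp h, fun h => measurable_of_evalOn hc hQ fun q _ => h q⟩

/-- If every evaluation of `X` is almost surely a measurable function of `h`, so is `X`. -/
theorem exists_version [Nonempty W] {Ω F : Type*} {m : MeasurableSpace F} {l : Filter Ω}
    [CountableInterFilter l] (h : Ω → F) (X : Ω → C(A, W))
    (hX : ∀ a, ∃ g : F → W, Measurable g ∧ ∀ᶠ ω in l, X ω a = g (h ω)) :
    ∃ G : F → C(A, W), Measurable G ∧ ∀ᶠ ω in l, X ω = G (h ω) := by
  obtain ⟨Q, hc, hQ⟩ := exists_countable_dense A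
  have := hc.to_subtype
  have : Nonempty C(A, W) := ⟨ContinuousMap.const A (Classical.arbitrary W)⟩
  choose g hg hX using hX
  have he := measurableEmbedding_evalOn (W := W) hc hQ
  refine ⟨fun y => he.invFun fun q => g q y,
    he.measurable_invFun.comp (measurable_pi_lambda _ fun q => hg q), ?_⟩
  filter_upwards [eventually_countable_forall.2 fun q : Q => hX q] with ω hω
  rw [← funext hω]
  exact (he.leftInverse_invFun _).symm

end cmap

section gd

variable {X Y W : Type*} [TopologicalSpace X] [TopologicalSpace Y] [TopologicalSpace W]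

/-- `p` defines a `Gδ` set -/
def Gd (p : X → Prop) : Prop := IsGδ {x | p x}

/-- `p` defines an `Fσ` set -/
def Fs (p : X → Prop) : Prop := IsGδ {x | ¬ p x}

variable {p q : X → Prop}

theorem Fs.not (h : Fs p) : Gd fun x => ¬ p x := h

theorem Gd.not (h : Gd p) : Fs fun x => ¬ p x := by simpa [Fs, Gd] using h

theorem Gd.congr (h : Gd p) (e : ∀ x, p x ↔ q x) : Gd q := (funext fun x => propext (e x)) ▸ h

theorem Fs.congr (h : Fs p) (e : ∀ x, p x ↔ q x) : Fs q := (funext fun x => propext (e x)) ▸ h

theorem Gd.comp {p : Y → Prop} (h : Gd p) {f : X → Y} (hf : Continuous f) :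
    Gd fun x => p (f x) := IsGδ.preimage hf h

theorem Fs.comp {p : Y → Prop} (h : Fs p) {f : X → Y} (hf : Continuous f) :
    Fs fun x => p (f x) := IsGδ.preimage hf h

theorem Gd.measurableSet [MeasurableSpace X] [OpensMeasurableSpace X] (h : Gd p) :
    MeasurableSet {x | p x} := IsGδ.measurableSet h

theorem Fs.measurableSet [MeasurableSpace X] [OpensMeasurableSpace X] (h : Fs p) :
    MeasurableSet {x | p x} := by
  simpa [compl_ofPred] using (IsGδ.measurableSet h).compl

theorem Gd.of_isOpen (h : IsOpen {x | p x}) : Gd p := h.isGδ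

theorem Fs.of_isClosed (h : IsClosed {x | p x}) : Fs p := h.isOpen_compl.isGδ

theorem Gd.of_isClosed [PseudoMetrizableSpace X] (h : IsClosed {x | p x}) : Gd p := h.isGδ

theorem Fs.of_isOpen [PseudoMetrizableSpace X] (h : IsOpen {x | p x}) : Fs p :=
  h.isClosed_compl.isGδ

theorem Gd.const (r : Prop) : Gd fun _ : X => r := by
  by_cases h : r <;> simp [Gd, h]

theorem Fs.const (r : Prop) : Fs fun _ : X => r := Gd.const (¬ r)

theorem Gd.and (hp : Gd p) (hq : Gd q) : Gd fun x => p x ∧ q x := IsGδ.inter hp hq

theorem Gd.or (hp : Gd p) (hq : Gd q) : Gd fun x => p x ∨ q x := IsGδ.union hp hq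

theorem Fs.and (hp : Fs p) (hq : Fs q) : Fs fun x => p x ∧ q x :=
  (hp.not.or hq.not).congr fun _ => not_and_or.symm

theorem Fs.or (hp : Fs p) (hq : Fs q) : Fs fun x => p x ∨ q x :=
  (hp.not.and hq.not).congr fun _ => not_or.symm

theorem Gd.imp (hp : Fs p) (hq : Gd q) : Gd fun x => p x → q x :=
  (hp.not.or hq).congr fun _ => imp_iff_not_or.symm

theorem Fs.imp (hp : Gd p) (hq : Fs q) : Fs fun x => p x → q x :=
  (hp.not.or hq).congr fun _ => imp_iff_not_or.symm

theorem Gd.forall_countable {ι : Sort*} [Countable ι] {p : ι → X → Prop} (h : ∀ i, Gd (p i)) :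
    Gd fun x => ∀ i, p i x := by
  have := IsGδ.iInter h
  rwa [← ofPred_forall] at this

theorem Gd.exists_finite {ι : Sort*} [Finite ι] {p : ι → X → Prop} (h : ∀ i, Gd (p i)) :
    Gd fun x => ∃ i, p i x := by
  have := IsGδ.iUnion h
  rwa [← ofPred_exists] at this

theorem Fs.exists_countable {ι : Sort*} [Countable ι] {p : ι → X → Prop} (h : ∀ i, Fs (p i)) :
    Fs fun x => ∃ i, p i x :=
  (Gd.forall_countable fun i => (h i).not).congr fun _ => not_exists.symm

theorem Fs.forall_finite {ι : Sort*} [Finite ι] {p : ι → X → Prop} (h : ∀ i, Fs (p i)) :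
    Fs fun x => ∀ i, p i x :=
  (Gd.exists_finite fun i => (h i).not).congr fun _ => not_forall.symm

/-- universal quantification over a sigma-compact space -/
theorem Gd.forall [SigmaCompactSpace W] {p : X → W → Prop} (h : Gd fun z : X × W => p z.1 z.2) :
    Gd fun x => ∀ w, p x w := by
  obtain ⟨U, hU, e⟩ := isGδ_iff_eq_iInter_nat.1 h
  have e' : ∀ x w, p x w ↔ ∀ n, (x, w) ∈ U n := fun x w => by
    rw [← mem_iInter, ← e]
    rfl
  refine (Gd.forall_countable fun n => Gd.forall_countable fun k => Gd.of_isOpen
    (p := fun x => ∀ w ∈ compactCovering W k, (x, w) ∈ U n) ?_).congr fun x => ?_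
  · refine isOpen_iff_mem_nhds.2 fun x hx => ?_
    exact (isCompact_compactCovering W k).eventually_forall_of_forall_eventually
      (P := fun x w => (x, w) ∈ U n) fun w hw => (hU n).mem_nhds (hx w hw)
  · refine ⟨fun hh w => (e' x w).2 fun n => ?_, fun hh n k w _ => (e' x w).1 (hh w) n⟩
    obtain ⟨k, hk⟩ := exists_mem_compactCovering w
    exact hh n k w hk

/-- existential quantification over a sigma-compact space -/
theorem Fs.exists [SigmaCompactSpace W] {p : X → W → Prop} (h : Fs fun z : X × W => p z.1 z.2) :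
    Fs fun x => ∃ w, p x w :=
  (Gd.forall (p := fun x w => ¬ p x w) h).congr fun _ => not_exists.symm

section order

variable {f g : X → ℝ}

theorem Fs.le (hf : Continuous f) (hg : Continuous g) : Fs fun x => f x ≤ g x :=
  Fs.of_isClosed (isClosed_le hf hg)

theorem Gd.lt (hf : Continuous f) (hg : Continuous g) : Gd fun x => f x < g x :=
  Gd.of_isOpen (isOpen_lt hf hg)

theorem Gd.le [PseudoMetrizableSpace X] (hf : Continuous f) (hg : Continuous g) :
    Gd fun x => f x ≤ g x := Gd.of_isClosed (isClosed_le hf hg)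

theorem Fs.lt [PseudoMetrizableSpace X] (hf : Continuous f) (hg : Continuous g) :
    Fs fun x => f x < g x := Fs.of_isOpen (isOpen_lt hf hg)

end order

theorem Fs.eq [T2Space Y] {f g : X → Y} (hf : Continuous f) (hg : Continuous g) :
    Fs fun x => f x = g x := Fs.of_isClosed (isClosed_eq hf hg)

theorem Gd.eq [T2Space Y] [PseudoMetrizableSpace X] {f g : X → Y} (hf : Continuous f)
    (hg : Continuous g) : Gd fun x => f x = g x := Gd.of_isClosed (isClosed_eq hf hg)

theorem Fs.mem_closed {S : Set Y} (hS : IsClosed S) {f : X → Y} (hf : Continuous f) :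
    Fs fun x => f x ∈ S := Fs.of_isClosed (hS.preimage hf)

theorem Gd.mem_open {S : Set Y} (hS : IsOpen S) {f : X → Y} (hf : Continuous f) :
    Gd fun x => f x ∈ S := Gd.of_isOpen (hS.preimage hf)

theorem Fs.mem_open [PseudoMetrizableSpace X] {S : Set Y} (hS : IsOpen S) {f : X → Y}
    (hf : Continuous f) : Fs fun x => f x ∈ S := Fs.of_isOpen (hS.preimage hf)

theorem Gd.mem_closed [PseudoMetrizableSpace X] {S : Set Y} (hS : IsClosed S) {f : X → Y}
    (hf : Continuous f) : Gd fun x => f x ∈ S := Gd.of_isClosed (hS.preimage hf)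

end gd

end LQ.Met
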