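import Mathlib

/-!
Length metrics, internal metrics, Weyl scaling, local parts: definitions.
`E` carries its own (Euclidean) metric `dist`; `D : E → E → ℝ` is the second (random) metric.
-/

set_option autoImplicit false

open Set MeasureTheory
open scoped ENNReal

namespace LQ.Met

noncomputable section

variable {E : Type*}

/-- The `D`-length of `γ` on the parameter set `s`: the supremum over all finite increasing
sequences of times in `s` of the sum of the `D`-distances of consecutive points. -/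
def len (D : E → E → ℝ) (γ : ℝ → E) (s : Set ℝ) : ℝ≥0∞ :=
  ⨆ p : ℕ × {u : ℕ → ℝ // Monotone u ∧ ∀ i, u i ∈ s},
    ∑ i ∈ Finset.range p.1, ENNReal.ofReal (D (γ (p.2.1 (i + 1))) (γ (p.2.1 i)))

/-- `γ` on `[0, 1]` is a continuous path from `x` to `y` that stays in `U`. -/
structure IsPath [TopologicalSpace E] (U : Set E) (x y : E) (γ : ℝ → E) : Prop where
  cont : ContinuousOn γ (Icc 0 1)
  src : γ 0 = x
  tgt : γ 1 = y
  maps : MapsTo γ (Icc 0 1) U

/-- The internal metric of `D` on `U`: infimum of the `D`-lengths of paths inside `U`. -/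
def DU [TopologicalSpace E] (D : E → E → ℝ) (U : Set E) (x y : E) : ℝ≥0∞ :=
  ⨅ (γ : ℝ → E) (_ : IsPath U x y γ), len D γ (Icc 0 1)

/-- `D` is a metric on `E` that induces the topology of `E`. -/
structure IsMet [MetricSpace E] (D : E → E → ℝ) : Prop where
  cont : Continuous fun p : E × E => D p.1 p.2
  self : ∀ x, D x x = 0
  symm : ∀ x y, D x y = D y x
  tri : ∀ x y z, D x z ≤ D x y + D y z
  topo : ∀ x, ∀ ε > 0, ∃ δ > 0, ∀ y, D x y < δ → dist x y < ε

/-- `D` is a length metric. -/
def IsLen [TopologicalSpace E] (D : E → E → ℝ) : Prop :=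
  ∀ x y, DU D univ x y = ENNReal.ofReal (D x y)

/-- `P` on `[0, L]` is a continuous path from `x` to `y` parametrised by `D`-length. -/
structure UP [TopologicalSpace E] (D : E → E → ℝ) (x y : E) (L : ℝ) (P : ℝ → E) : Prop where
  nonneg : 0 ≤ L
  cont : ContinuousOn P (Icc 0 L)
  src : P 0 = x
  tgt : P L = y
  speed : ∀ s t, 0 ≤ s → s ≤ t → t ≤ L → len D P (Icc s t) = ENNReal.ofReal (t - s)

/-- Weyl scaling inside `U`: infimum over the paths `P` in `U` from `x` to `y` parametrised by
`D`-length of `∫_0^{len P} exp (f (P t)) dt`. -/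
def wmetOn [TopologicalSpace E] (f : E → ℝ) (D : E → E → ℝ) (U : Set E) (x y : E) : ℝ≥0∞ :=
  ⨅ (L : ℝ) (P : ℝ → E) (_ : UP D x y L P) (_ : MapsTo P (Icc 0 L) U),
    ∫⁻ t in Icc 0 L, ENNReal.ofReal (Real.exp (f (P t)))

/-- Weyl scaling `e^f · D`: infimum over the paths `P` from `x` to `y` parametrised by `D`-length
of `∫_0^{len P} exp (f (P t)) dt`. -/
def wmet [TopologicalSpace E] (f : E → ℝ) (D : E → E → ℝ) (x y : E) : ℝ≥0∞ :=
  ⨅ (L : ℝ) (P : ℝ → E) (_ : UP D x y L P), ∫⁻ t in Icc 0 L, ENNReal.ofReal (Real.exp (f (P t)))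

/-- `D' = e^f · D`. -/
def IsWeyl [TopologicalSpace E] (f : E → ℝ) (D D' : E → E → ℝ) : Prop :=
  ∀ x y, ENNReal.ofReal (D' x y) = wmet f D x y

/-- The internal metric of `D'` on `U` is the Weyl scaling of `D` inside `U`. -/
def IsWeylOn [TopologicalSpace E] (f : E → ℝ) (D D' : E → E → ℝ) (U : Set E) : Prop :=
  ∀ x ∈ U, ∀ y ∈ U, DU D' U x y = wmetOn f D U x y

/-- distance from `x` to the complement of `U` -/
def dOut (D : E → E → ℝ) (U : Set E) (x : E) : ℝ := sInf (D x '' Uᶜ)

/-- the local part of `D` in `U` -/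
def TU (D : E → E → ℝ) (U : Set E) (x y : E) : ℝ := min (D x y) (dOut D U x)

/-- distance from `x` to the frontier of `U` -/
def dFr [TopologicalSpace E] (D : E → E → ℝ) (U : Set E) (x : E) : ℝ := sInf (D x '' frontier U)

end

end LQ.Met
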