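import Pool.Agent.Lib.MP_0d9445_pr.Met.Out

/-!
Weyl scaling: comparison of local parts, constants, change of coordinates.
-/

set_option autoImplicit false

open Set MeasureTheory Filter Topology
open scoped ENNReal

namespace LQ.Met

variable {E : Type*} [MetricSpace E] {D D₁ D₂ D' : E → E → ℝ} {U V U₁ U₂ : Set E} {x y : E}
  {f f₁ f₂ : E → ℝ} {a b c : ℝ}

theorem wmet_eq (f : E → ℝ) (D : E → E → ℝ) (x y : E) : wmet f D x y = wmetOn f D univ x y := by
  simp [wmet, wmetOn, mapsTo_univ]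

theorem IsWeyl.isWeylOn (w : IsWeyl f D D') (hl : IsLen D') : IsWeylOn f D D' univ :=
  fun x _ y _ => by rw [hl x y, w x y, wmet_eq]

omit [MetricSpace E] in
theorem weight_le {P : ℝ → E} {τ L : ℝ} (hτ : τ ≤ L)
    (hf : ∀ s, 0 ≤ s → s < τ → f₁ (P s) ≤ f₂ (P s) + b) :
    ∫⁻ t in Icc 0 τ, ENNReal.ofReal (Real.exp (f₁ (P t))) ≤
      ENNReal.ofReal (Real.exp b) * ∫⁻ t in Icc 0 L, ENNReal.ofReal (Real.exp (f₂ (P t))) := by
  rw [← lintegral_const_mul' _ _ ENNReal.ofReal_ne_top, ← Measure.restrict_congr_set Ico_ae_eq_Icc]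
  refine le_trans (setLIntegral_mono' measurableSet_Ico fun s hs => ?_)
    (lintegral_mono_set (Ico_subset_Icc_self.trans (Icc_subset_Icc_right hτ)))
  rw [← ENNReal.ofReal_mul (Real.exp_pos b).le, ← Real.exp_add, add_comm]
  exact ENNReal.ofReal_le_ofReal (Real.exp_le_exp.2 (hf s hs.1 hs.2))

theorem wmetOn_le_path {L : ℝ} {P : ℝ → E} (u : UP D x y L P) (hm : MapsTo P (Icc 0 L) U) :
    wmetOn f D U x y ≤ ∫⁻ t in Icc 0 L, ENNReal.ofReal (Real.exp (f (P t))) :=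
  iInf₂_le_of_le L P (iInf₂_le_of_le u hm le_rfl)

theorem le_mul_wmetOn {r : ℝ≥0∞}
    (h : ∀ L P, UP D x y L P → MapsTo P (Icc 0 L) U → r ≤
      ENNReal.ofReal (Real.exp b) * ∫⁻ t in Icc 0 L, ENNReal.ofReal (Real.exp (f (P t)))) :
    r ≤ ENNReal.ofReal (Real.exp b) * wmetOn f D U x y := by
  have h0 : ENNReal.ofReal (Real.exp b) ≠ 0 := (ENNReal.ofReal_pos.2 (Real.exp_pos b)).ne'
  simp only [wmetOn, ENNReal.mul_iInf_of_ne h0 ENNReal.ofReal_ne_top]
  exact le_iInf₂ fun L P => le_iInf₂ fun u hm => h L P u hm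

theorem wmetOn_le (hf : ∀ z ∈ U, f₁ z ≤ f₂ z + b) (x y : E) :
    wmetOn f₁ D U x y ≤ ENNReal.ofReal (Real.exp b) * wmetOn f₂ D U x y :=
  le_mul_wmetOn fun _ _ u hm => (wmetOn_le_path u hm).trans
    (weight_le le_rfl fun _ hs hsL => hf _ (hm ⟨hs, hsL.le⟩))

theorem wmetOn_congr (hf : EqOn f₁ f₂ U) (x y : E) : wmetOn f₁ D U x y = wmetOn f₂ D U x y := by
  refine le_antisymm ?_ ?_
  · simpa using wmetOn_le (D := D) (b := 0) (fun z hz => by rw [hf hz, add_zero]) x y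
  · simpa using wmetOn_le (D := D) (b := 0) (fun z hz => by rw [← hf hz, add_zero]) x y

theorem wmetOn_add_const (f : E → ℝ) (c : ℝ) (x y : E) :
    wmetOn (fun z => f z + c) D U x y = ENNReal.ofReal (Real.exp c) * wmetOn f D U x y := by
  refine le_antisymm (wmetOn_le (fun _ _ => le_rfl) x y) ?_
  have := wmetOn_le (D := D) (U := U) (f₁ := f) (f₂ := fun z => f z + c) (b := -c)
    (fun z _ => by linarith) x y
  refine (mul_le_mul_right this _).trans_eq ?_
  rw [← mul_assoc, ← ENNReal.ofReal_mul (Real.exp_pos c).le, ← Real.exp_add]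
  simp

theorem wmetOn_zero (h : IsMet D) (U : Set E) (x y : E) :
    wmetOn (fun _ => 0) D U x y = DU D U x y := by
  refine le_antisymm (le_iInf₂ fun γ p => ?_) (le_iInf₂ fun L P => le_iInf₂ fun u hm => ?_)
  · by_cases hfin : len D γ (Icc 0 1) = ∞
    · rw [hfin]
      exact le_top
    · obtain ⟨P, u, hm⟩ := p.exists_UP h hfin
      refine (wmetOn_le_path u hm).trans ?_
      simp [ENNReal.ofReal_toReal hfin]
  · simpa using u.DU_le h hm

theorem isWeylOn_zero (h : IsMet D) (U : Set E) : IsWeylOn (fun _ => 0) D D U :=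
  fun x _ y _ => (wmetOn_zero h U x y).symm

theorem isWeyl_zero (h : IsMet D) (hl : IsLen D) : IsWeyl (fun _ => 0) D D :=
  fun x y => by rw [wmet_eq, wmetOn_zero h, hl x y]

/-- Comparison of the local parts of two Weyl scalings of one metric. -/
theorem TU_weylOn_le (h₁ : IsMet D₁) (h₂ : IsMet D₂) (hl : IsLen D₂) (w₁ : IsWeylOn f₁ D D₁ U₁)
    (w₂ : IsWeylOn f₂ D D₂ U₂) (hV : IsOpen V) (hne : Vᶜ.Nonempty) (hV₁ : closure V ⊆ U₁)
    (hV₂ : closure V ⊆ U₂) (hf : ∀ z ∈ V, f₁ z ≤ f₂ z + b) (x y : E) :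
    TU D₁ V x y ≤ Real.exp b * TU D₂ V x y := by
  refine TU_le_of_DU h₁ h₂ hl hV hne hV₂ (Real.exp_pos b).le (fun hx y hy => ?_) y
  rw [w₂ x (hV₂ (subset_closure hx)) y (hV₂ hy)]
  refine le_mul_wmetOn fun L P u _ => ?_
  by_cases hm : MapsTo P (Icc 0 L) V
  · refine (ENNReal.ofReal_le_ofReal (TU_le D₁ V x y)).trans ((le_DU h₁ U₁ x y).trans ?_)
    rw [w₁ x (hV₁ (subset_closure hx)) y (hV₁ hy)]
    exact (wmetOn_le_path u (hm.mono_right (subset_closure.trans hV₁))).trans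
      (weight_le le_rfl fun _ hs hsL => hf _ (hm ⟨hs, hsL.le⟩))
  · obtain ⟨τ, hτ, -, hfr, hin, hcl⟩ := u.exists_exit hV hx hm
    have h1 : P τ ∈ U₁ := hV₁ (frontier_subset_closure hfr)
    rw [hV.frontier_eq] at hfr
    refine (ENNReal.ofReal_le_ofReal ((TU_le_dOut D₁ V x y).trans (dOut_le h₁ x hfr.2))).trans
      ((le_DU h₁ U₁ x (P τ)).trans ?_)
    rw [w₁ x (hV₁ (subset_closure hx)) _ h1]
    exact (wmetOn_le_path (u.restrict hτ) (hcl.mono_right hV₁)).trans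
      (weight_le hτ.2 fun s hs hsτ => hf _ (hin s hs hsτ))

theorem TU_weylOn_congr (h₁ : IsMet D₁) (h₂ : IsMet D₂) (hl₁ : IsLen D₁) (hl₂ : IsLen D₂)
    (w₁ : IsWeylOn f₁ D D₁ U₁) (w₂ : IsWeylOn f₂ D D₂ U₂) (hV : IsOpen V) (hne : Vᶜ.Nonempty)
    (hV₁ : closure V ⊆ U₁) (hV₂ : closure V ⊆ U₂) (hf : EqOn f₁ f₂ V) (x y : E) :
    TU D₁ V x y = TU D₂ V x y := by
  refine le_antisymm ?_ ?_
  · simpa using TU_weylOn_le h₁ h₂ hl₂ w₁ w₂ hV hne hV₁ hV₂ (b := 0)
      (fun z hz => by rw [hf hz, add_zero]) x y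
  · simpa using TU_weylOn_le h₂ h₁ hl₁ w₂ w₁ hV hne hV₂ hV₁ (b := 0)
      (fun z hz => by rw [← hf hz, add_zero]) x y

theorem TU_weyl_le (h₁ : IsMet D₁) (h₂ : IsMet D₂) (hl₁ : IsLen D₁) (hl₂ : IsLen D₂)
    (w₁ : IsWeyl f₁ D D₁) (w₂ : IsWeyl f₂ D D₂) (hV : IsOpen V) (hne : Vᶜ.Nonempty)
    (hf : ∀ z ∈ V, f₁ z ≤ f₂ z + b) (x y : E) : TU D₁ V x y ≤ Real.exp b * TU D₂ V x y :=
  TU_weylOn_le h₁ h₂ hl₂ (w₁.isWeylOn hl₁) (w₂.isWeylOn hl₂) hV hne (subset_univ _)
    (subset_univ _) hf x y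

/-- upper comparison with the unscaled metric -/
theorem TU_weyl_upper (h : IsMet D) (hl : IsLen D) (h' : IsMet D') (hl' : IsLen D')
    (w : IsWeyl f D D') (hV : IsOpen V) (hne : Vᶜ.Nonempty) (hf : ∀ z ∈ V, f z ≤ b) (x y : E) :
    TU D' V x y ≤ Real.exp b * TU D V x y :=
  TU_weyl_le h' h hl' hl w (isWeyl_zero h hl) hV hne (fun z hz => by simpa using hf z hz) x y

/-- lower comparison with the unscaled metric -/
theorem TU_weyl_lower (h : IsMet D) (hl : IsLen D) (h' : IsMet D') (hl' : IsLen D')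
    (w : IsWeyl f D D') (hV : IsOpen V) (hne : Vᶜ.Nonempty) (hf : ∀ z ∈ V, a ≤ f z) (x y : E) :
    Real.exp a * TU D V x y ≤ TU D' V x y := by
  have := TU_weyl_le h h' hl hl' (isWeyl_zero h hl) w hV hne (b := -a)
    (fun z hz => by linarith [hf z hz]) x y
  have h2 := mul_le_mul_of_nonneg_left this (Real.exp_pos a).le
  rwa [← mul_assoc, ← Real.exp_add, add_neg_cancel, Real.exp_zero, one_mul] at h2

/-- global comparison -/
theorem weyl_le (h₂ : IsMet D₂) (w₁ : IsWeyl f₁ D D₁) (w₂ : IsWeyl f₂ D D₂)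
    (hf : ∀ z, f₁ z ≤ f₂ z + b) (x y : E) : D₁ x y ≤ Real.exp b * D₂ x y := by
  have := wmetOn_le (D := D) (U := univ) (fun z _ => hf z) x y
  rw [← wmet_eq, ← wmet_eq, ← w₁, ← w₂, ← ENNReal.ofReal_mul (Real.exp_pos b).le] at this
  exact (ENNReal.ofReal_le_ofReal_iff (mul_nonneg (Real.exp_pos b).le (h₂.nonneg x y))).1 this

theorem weyl_add_const (h₁ : IsMet D₁) (h₂ : IsMet D₂) (w₁ : IsWeyl f D D₁)
    (w₂ : IsWeyl (fun z => f z + c) D D₂) (x y : E) : D₂ x y = Real.exp c * D₁ x y := by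
  rw [← ENNReal.ofReal_eq_ofReal_iff (h₂.nonneg x y)
    (mul_nonneg (Real.exp_pos c).le (h₁.nonneg x y)), w₂, ENNReal.ofReal_mul (Real.exp_pos c).le,
    w₁, wmet_eq, wmet_eq, wmetOn_add_const]

theorem weyl_const (h : IsMet D) (hl : IsLen D) (h' : IsMet D') (w : IsWeyl (fun _ => c) D D')
    (x y : E) : D' x y = Real.exp c * D x y :=
  weyl_add_const h h' (isWeyl_zero h hl) (by simpa using w) x y

theorem weyl_unique (h₁ : IsMet D₁) (h₂ : IsMet D₂) (w₁ : IsWeyl f D D₁) (w₂ : IsWeyl f D D₂) :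
    D₁ = D₂ := by
  funext x y
  rw [← ENNReal.ofReal_eq_ofReal_iff (h₁.nonneg x y) (h₂.nonneg x y), w₁, w₂]

/-! ### constant multiples -/

theorem IsMet.const_mul (h : IsMet D) (hc : 0 < c) : IsMet fun x y => c * D x y where
  cont := continuous_const.mul h.cont
  self x := by rw [h.self, mul_zero]
  symm x y := by rw [h.symm]
  tri x y z := by
    rw [← mul_add]
    exact mul_le_mul_of_nonneg_left (h.tri x y z) hc.le
  topo x ε hε := by
    obtain ⟨δ, hδ, hd⟩ := h.topo x ε hε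
    exact ⟨c * δ, mul_pos hc hδ, fun y hy => hd y (lt_of_mul_lt_mul_left hy hc.le)⟩

omit [MetricSpace E] in
theorem len_const_mul (hc : 0 ≤ c) (γ : ℝ → E) (s : Set ℝ) :
    len (fun x y => c * D x y) γ s = ENNReal.ofReal c * len D γ s := by
  simp only [len, ENNReal.mul_iSup, Finset.mul_sum, ENNReal.ofReal_mul hc]

theorem DU_const_mul (hc : 0 < c) (U : Set E) (x y : E) :
    DU (fun x y => c * D x y) U x y = ENNReal.ofReal c * DU D U x y := by
  simp only [DU, len_const_mul hc.le,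
    ENNReal.mul_iInf_of_ne (ENNReal.ofReal_pos.2 hc).ne' ENNReal.ofReal_ne_top]

theorem IsLen.const_mul (hl : IsLen D) (hc : 0 < c) : IsLen fun x y => c * D x y :=
  fun x y => by rw [DU_const_mul hc, hl x y, ENNReal.ofReal_mul hc.le]

omit [MetricSpace E] in
theorem sInf_image_const_mul (hc : 0 ≤ c) (g : E → ℝ) (S : Set E) :
    sInf ((fun y => c * g y) '' S) = c * sInf (g '' S) := by
  rw [← smul_eq_mul c (sInf _), ← Real.sInf_smul_of_nonneg hc, ← image_smul, image_image]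
  rfl

omit [MetricSpace E] in
theorem dOut_const_mul (hc : 0 ≤ c) (U : Set E) (x : E) :
    dOut (fun x y => c * D x y) U x = c * dOut D U x := sInf_image_const_mul hc _ _

theorem dFr_const_mul (hc : 0 ≤ c) (U : Set E) (x : E) :
    dFr (fun x y => c * D x y) U x = c * dFr D U x := sInf_image_const_mul hc _ _

omit [MetricSpace E] in
theorem TU_const_mul (hc : 0 ≤ c) (U : Set E) (x y : E) :
    TU (fun x y => c * D x y) U x y = c * TU D U x y := by
  rw [TU, dOut_const_mul hc, TU, mul_min_of_nonneg _ _ hc]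

/-! ### change of coordinates -/

section pull

variable {E' : Type*} [MetricSpace E'] (φ : E' ≃ₜ E)

theorem IsMet.pull (h : IsMet D) : IsMet fun x y => D (φ x) (φ y) where
  cont := h.cont.comp (f := fun p : E' × E' => (φ p.1, φ p.2)) (by fun_prop)
  self x := h.self _
  symm x y := h.symm _ _
  tri x y z := h.tri _ _ _
  topo x ε hε := by
    obtain ⟨η, hη, h1⟩ := Metric.continuous_iff.1 φ.symm.continuous (φ x) ε hε
    obtain ⟨δ, hδ, hd⟩ := h.topo (φ x) η hη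
    refine ⟨δ, hδ, fun y hy => ?_⟩
    have := h1 (φ y) (by rw [dist_comm]; exact hd _ hy)
    rwa [φ.symm_apply_apply, φ.symm_apply_apply, dist_comm] at this

theorem DU_pull (D : E → E → ℝ) (U : Set E) (x y : E') :
    DU (fun x y => D (φ x) (φ y)) (φ ⁻¹' U) x y = DU D U (φ x) (φ y) := by
  refine le_antisymm (le_iInf₂ fun γ p => ?_) (le_iInf₂ fun γ p => ?_)
  · refine iInf₂_le_of_le (fun t => φ.symm (γ t)) ⟨φ.symm.continuous.comp_continuousOn p.cont,
      by simp [p.src], by simp [p.tgt], fun t ht => by simpa using p.maps ht⟩ ?_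
    simp [len]
  · exact iInf₂_le_of_le (fun t => φ (γ t)) ⟨φ.continuous.comp_continuousOn p.cont,
      by simp [p.src], by simp [p.tgt], fun t ht => p.maps ht⟩ le_rfl

theorem IsLen.pull (hl : IsLen D) : IsLen fun x y => D (φ x) (φ y) := fun x y => by
  rw [← hl, ← DU_pull, preimage_univ]

theorem image_pull (g : E → ℝ) (S : Set E) : (fun y => g (φ y)) '' (φ ⁻¹' S) = g '' S := by
  rw [← image_image g φ, image_preimage_eq _ φ.surjective]

theorem dOut_pull (D : E → E → ℝ) (U : Set E) (x : E') :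
    dOut (fun x y => D (φ x) (φ y)) (φ ⁻¹' U) x = dOut D U (φ x) := by
  rw [dOut, dOut, ← preimage_compl, image_pull φ (D (φ x))]

theorem dFr_pull (D : E → E → ℝ) (U : Set E) (x : E') :
    dFr (fun x y => D (φ x) (φ y)) (φ ⁻¹' U) x = dFr D U (φ x) := by
  rw [dFr, dFr, ← φ.preimage_frontier, image_pull φ (D (φ x))]

theorem TU_pull (D : E → E → ℝ) (U : Set E) (x y : E') :
    TU (fun x y => D (φ x) (φ y)) (φ ⁻¹' U) x y = TU D U (φ x) (φ y) := by
  rw [TU, dOut_pull, TU]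

end pull

end LQ.Met
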