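import Pool.Agent.Lib.MP_0d9445_pr.Met.Out
import Pool.Agent.Lib.MP_0d9445_pr.Met.CMap

/-!
The local part of a metric as a continuous map on `C(E × E, ℝ)`, and its measurability from the
locality of the internal metric.
-/

set_option autoImplicit false

open Set MeasureTheory Filter Topology TopologicalSpace Function
open scoped ENNReal

namespace LQ.Met

variable {E : Type*} [MetricSpace E]

theorem continuous_sInf_image [LocallyCompactSpace E] {K : Set E} (hK : IsCompact K) :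
    Continuous fun q : C(E × E, ℝ) × E => sInf (curry q.1 q.2 '' K) :=
  hK.continuous_sInf (f := fun (q : C(E × E, ℝ) × E) (w : E) => q.1 (q.2, w))
    (show Continuous fun z : (C(E × E, ℝ) × E) × E => z.1.1 (z.1.2, z.2) by fun_prop)

/-- `min (D (p x, p y)) (inf_{w ∈ K} D (p x, w))` -/
noncomputable def Tp (p : C(E, E)) {K : Set E} (hK : IsCompact K) (D : C(E × E, ℝ)) :
    C(E × E, ℝ) :=
  ⟨fun z => min (D (p z.1, p z.2)) (sInf (curry D (p z.1) '' K)), Continuous.min (by fun_prop)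
    (hK.continuous_sInf (f := fun (z : E × E) (w : E) => D (p z.1, w))
      (show Continuous fun z : (E × E) × E => D (p z.1.1, z.2) by fun_prop))⟩

theorem Tp_apply (p : C(E, E)) {K : Set E} (hK : IsCompact K) (D : C(E × E, ℝ)) (x y : E) :
    Tp p hK D (x, y) = min (D (p x, p y)) (sInf (curry D (p x) '' K)) := rfl

theorem continuous_Tp [LocallyCompactSpace E] (p : C(E, E)) {K : Set E} (hK : IsCompact K) :
    Continuous (Tp p hK) := by
  refine ContinuousMap.continuous_of_continuous_uncurry _ ?_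
  exact Continuous.min (by fun_prop)
    ((continuous_sInf_image hK).comp (f := fun z : C(E × E, ℝ) × E × E => (z.1, p z.2.1))
      (by fun_prop))

/-- For a length metric, `Tp` is the local part `TU` read through `p`. -/
theorem Tp_eq {p : C(E, E)} {U : Set E} (hU : IsOpen U) (hK : IsCompact (frontier U))
    (hp : ∀ x, p x ∈ closure U) {D : C(E × E, ℝ)} (h : IsMet (curry D)) (hl : IsLen (curry D))
    (x y : E) : Tp p hK D (x, y) = TU (curry D) U (p x) (p y) := by
  rw [TU, ← dFr_eq_dOut h hl hU (hp x)]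
  rfl

variable [ProperSpace E] {Ω F : Type*} {m : MeasurableSpace F} {l : Filter Ω}
  [CountableInterFilter l] {h : Ω → F} {U : Set E}

/-- Locality of the internal metric gives locality of `dOut`. -/
theorem dOut_version {D : Ω → E → E → ℝ} (hD : ∀ᶠ ω in l, IsMet (D ω) ∧ IsLen (D ω))
    (hU : IsOpen U) (hb : Bornology.IsBounded U) (hne : Uᶜ.Nonempty)
    (hloc : ∀ x ∈ U, ∀ y ∈ U, ∃ g : F → ℝ≥0∞, Measurable g ∧
      ∀ᶠ ω in l, DU (D ω) U x y = g (h ω)) {x : E} (hx : x ∈ U) :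
    ∃ g : F → ℝ≥0∞, Measurable g ∧ ∀ᶠ ω in l, ENNReal.ofReal (dOut (D ω) U x) = g (h ω) := by
  obtain ⟨Q, hc, hQ⟩ := exists_countable_dense E
  choose! g hg he using hloc x hx
  have hcn : ∀ n : ℕ, {q | q ∈ Q ∧ q ∈ U ∧ Metric.infDist q Uᶜ < 1 / ((n : ℝ) + 1)}.Countable :=
    fun n => hc.mono fun q hq => hq.1
  refine ⟨fun y => ⨆ n : ℕ, ⨅ q ∈ {q | q ∈ Q ∧ q ∈ U ∧ Metric.infDist q Uᶜ < 1 / ((n : ℝ) + 1)},
    g q y, Measurable.iSup fun n => ?_, ?_⟩
  · have := (hcn n).to_subtype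
    simp only [iInf_subtype']
    exact Measurable.iInf fun q => hg q q.2.2.1
  · filter_upwards [hD, (eventually_countable_ball (hc.mono (inter_subset_left (t := U)))).2
      fun q hq => he q hq.2] with ω hω hω'
    rw [ofReal_dOut_eq hω.1 hω.2 hU hb hne hQ hx]
    exact iSup_congr fun n => iInf_congr fun q => iInf_congr fun hq => hω' q ⟨hq.1, hq.2.1⟩

/-- Locality of the internal metric gives locality of `TU`. -/
theorem TU_version {D : Ω → E → E → ℝ} (hD : ∀ᶠ ω in l, IsMet (D ω) ∧ IsLen (D ω))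
    (hU : IsOpen U) (hb : Bornology.IsBounded U) (hne : Uᶜ.Nonempty)
    (hloc : ∀ x ∈ U, ∀ y ∈ U, ∃ g : F → ℝ≥0∞, Measurable g ∧
      ∀ᶠ ω in l, DU (D ω) U x y = g (h ω)) (x y : E) :
    ∃ g : F → ℝ, Measurable g ∧ ∀ᶠ ω in l, TU (D ω) U x y = g (h ω) := by
  by_cases hx : x ∈ U
  swap
  · exact ⟨fun _ => 0, measurable_const, hD.mono fun ω hω => TU_of_notMem_left hω.1 hx y⟩
  obtain ⟨g, hg, he⟩ := dOut_version hD hU hb hne hloc hx
  by_cases hy : y ∈ U
  · obtain ⟨g', hg', he'⟩ := hloc x hx y hy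
    refine ⟨fun z => (min (g' z) (g z)).toReal, (hg'.min hg).ennreal_toReal, ?_⟩
    filter_upwards [hD, he, he'] with ω hω h1 h2
    rw [← h1, ← h2, ← ofReal_TU hω.1 hω.2, ENNReal.toReal_ofReal (TU_nonneg hω.1 U x y)]
  · refine ⟨fun z => (g z).toReal, hg.ennreal_toReal, ?_⟩
    filter_upwards [hD, he] with ω hω h1
    rw [← h1, TU_of_notMem_right hω.1 x hy, ENNReal.toReal_ofReal (dOut_nonneg hω.1 U x)]

/-- Locality of the internal metric on `U`: the local part is a measurable function of `h`. -/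
theorem Tp_version [MeasurableSpace C(E × E, ℝ)] [BorelSpace C(E × E, ℝ)] {D : Ω → C(E × E, ℝ)}
    (hD : ∀ᶠ ω in l, IsMet (curry (D ω)) ∧ IsLen (curry (D ω))) (hU : IsOpen U)
    (hb : Bornology.IsBounded U) (hne : Uᶜ.Nonempty) (hK : IsCompact (frontier U)) {p : C(E, E)}
    (hp : ∀ x, p x ∈ closure U)
    (hloc : ∀ x ∈ U, ∀ y ∈ U, ∃ g : F → ℝ≥0∞, Measurable g ∧
      ∀ᶠ ω in l, DU (curry (D ω)) U x y = g (h ω)) :
    ∃ G : F → C(E × E, ℝ), Measurable G ∧ ∀ᶠ ω in l, Tp p hK (D ω) = G (h ω) := by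
  refine exists_version h _ fun ⟨x, y⟩ => ?_
  obtain ⟨g, hg, he⟩ := TU_version hD hU hb hne hloc (p x) (p y)
  refine ⟨g, hg, ?_⟩
  filter_upwards [hD, he] with ω hω h1
  rw [Tp_eq hU hK hp hω.1 hω.2, h1]

end LQ.Met
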