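import Pool.Agent.Lib.MP_0d9445_pr.Met.Path

/-!
Distance to the complement of an open set and the local part `TU` of a length metric.
-/

set_option autoImplicit false

open Set MeasureTheory Filter Topology
open scoped ENNReal

namespace LQ.Met

variable {E : Type*} [MetricSpace E] {D : E → E → ℝ} {U V : Set E} {x y : E}

theorem IsMet.bddBelow (h : IsMet D) (x : E) (S : Set E) : BddBelow (D x '' S) :=
  ⟨0, by rintro _ ⟨y, -, rfl⟩; exact h.nonneg x y⟩

theorem dOut_nonneg (h : IsMet D) (U : Set E) (x : E) : 0 ≤ dOut D U x :=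
  Real.sInf_nonneg (by rintro _ ⟨y, -, rfl⟩; exact h.nonneg x y)

theorem dOut_le (h : IsMet D) (x : E) (hy : y ∉ U) : dOut D U x ≤ D x y :=
  csInf_le (h.bddBelow x _) ⟨y, hy, rfl⟩

omit [MetricSpace E] in
theorem le_dOut (hU : Uᶜ.Nonempty) {a : ℝ} (ha : ∀ y, y ∉ U → a ≤ D x y) : a ≤ dOut D U x :=
  le_csInf (hU.image _) (by rintro _ ⟨y, hy, rfl⟩; exact ha y hy)

omit [MetricSpace E] in
theorem exists_lt_of_dOut_lt (hU : Uᶜ.Nonempty) {a : ℝ} (ha : dOut D U x < a) :
    ∃ y, y ∉ U ∧ D x y < a := by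
  by_contra hh
  push Not at hh
  exact ha.not_ge (le_dOut hU hh)

theorem dOut_of_notMem (h : IsMet D) (hx : x ∉ U) : dOut D U x = 0 :=
  le_antisymm ((dOut_le h x hx).trans_eq (h.self x)) (dOut_nonneg h U x)

theorem mem_of_lt_dOut (h : IsMet D) (hlt : D x y < dOut D U x) : y ∈ U := by
  by_contra hy
  exact hlt.not_ge (dOut_le h x hy)

theorem dOut_pos (h : IsMet D) (hU : IsOpen U) (hne : Uᶜ.Nonempty) (hx : x ∈ U) :
    0 < dOut D U x := by
  obtain ⟨ε, hε, hb⟩ := Metric.isOpen_iff.1 hU x hx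
  obtain ⟨δ, hδ, hd⟩ := h.topo x ε hε
  refine hδ.trans_le (le_dOut hne fun y hy => ?_)
  by_contra hh
  exact hy (hb (by rw [Metric.mem_ball, dist_comm]; exact hd y (not_le.1 hh)))

theorem dOut_le_add (h : IsMet D) (U : Set E) (x x' : E) :
    dOut D U x ≤ D x x' + dOut D U x' := by
  rcases Uᶜ.eq_empty_or_nonempty with h0 | hne
  · simp [dOut, h0, h.nonneg]
  · have : dOut D U x - D x x' ≤ dOut D U x' :=
      le_dOut hne fun y hy => by linarith [dOut_le h x hy, h.tri x x' y]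
    linarith

theorem continuous_dOut (h : IsMet D) (U : Set E) : Continuous (dOut D U) := by
  refine Metric.continuous_iff.2 fun x ε hε => ?_
  obtain ⟨δ, hδ, hd⟩ := h.exists_ball x hε
  refine ⟨δ, hδ, fun y hy => ?_⟩
  have h1 := dOut_le_add h U x y
  have h2 := dOut_le_add h U y x
  rw [h.symm y x] at h2
  have := hd y hy
  rw [Real.dist_eq, abs_lt]
  constructor <;> linarith

theorem dOut_mono (h : IsMet D) (hVU : V ⊆ U) (hne : Uᶜ.Nonempty) (x : E) :
    dOut D V x ≤ dOut D U x :=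
  le_dOut hne fun _ hy => dOut_le h x fun hv => hy (hVU hv)

omit [MetricSpace E] in
theorem TU_le (D : E → E → ℝ) (U : Set E) (x y : E) : TU D U x y ≤ D x y := min_le_left _ _

omit [MetricSpace E] in
theorem TU_le_dOut (D : E → E → ℝ) (U : Set E) (x y : E) : TU D U x y ≤ dOut D U x :=
  min_le_right _ _

theorem TU_nonneg (h : IsMet D) (U : Set E) (x y : E) : 0 ≤ TU D U x y :=
  le_min (h.nonneg x y) (dOut_nonneg h U x)

theorem TU_of_notMem_right (h : IsMet D) (x : E) (hy : y ∉ U) : TU D U x y = dOut D U x :=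
  min_eq_right (dOut_le h x hy)

theorem TU_of_notMem_left (h : IsMet D) (hx : x ∉ U) (y : E) : TU D U x y = 0 := by
  rw [TU, dOut_of_notMem h hx, min_eq_right (h.nonneg x y)]

omit [MetricSpace E] in
theorem TU_eq_of_le (hle : D x y ≤ dOut D U x) : TU D U x y = D x y := min_eq_left hle

omit [MetricSpace E] in
theorem eq_of_TU_lt (hlt : TU D U x y < dOut D U x) : TU D U x y = D x y := by
  refine min_eq_left ?_
  by_contra hh
  rw [TU, min_eq_right (not_le.1 hh).le] at hlt
  exact lt_irrefl _ hlt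

omit [MetricSpace E] in
theorem TU_lt_iff {a : ℝ} (ha : a ≤ dOut D U x) : TU D U x y < a ↔ D x y < a := by
  rw [TU, min_lt_iff, or_iff_left ha.not_gt]

theorem continuous_TU (h : IsMet D) (U : Set E) : Continuous fun p : E × E => TU D U p.1 p.2 :=
  h.cont.min ((continuous_dOut h U).comp continuous_fst)

theorem dOut_TU (h : IsMet D) (hVU : V ⊆ U) (hne : Uᶜ.Nonempty) (x : E) :
    dOut (TU D U) V x = dOut D V x := by
  have hne' : Vᶜ.Nonempty := hne.mono (compl_subset_compl.2 hVU)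
  refine le_antisymm (le_dOut hne' fun y hy => ?_) (le_dOut hne' fun y hy => ?_)
  · exact (csInf_le ⟨0, by rintro _ ⟨z, -, rfl⟩; exact TU_nonneg h U x z⟩
      (mem_image_of_mem (TU D U x) (show y ∈ Vᶜ from hy))).trans (TU_le D U x y)
  · exact le_min (dOut_le h x hy) (dOut_mono h hVU hne x)

theorem TU_TU (h : IsMet D) (hVU : V ⊆ U) (hne : Uᶜ.Nonempty) (x y : E) :
    TU (TU D U) V x y = TU D V x y := by
  rw [TU, dOut_TU h hVU hne, TU, min_assoc, min_eq_right (dOut_mono h hVU hne x), TU]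

/-- a path shorter than the distance to the complement stays inside -/
theorem UP.mapsTo_of_lt (h : IsMet D) {L : ℝ} {P : ℝ → E} (u : UP D x y L P)
    (hL : L < dOut D U x) : MapsTo P (Icc 0 L) U := fun _ ht =>
  mem_of_lt_dOut h ((u.le_left h ht).trans_lt (ht.2.trans_lt hL))

theorem DU_eq_of_lt_dOut (h : IsMet D) (hl : IsLen D) (hlt : D x y < dOut D U x) :
    DU D U x y = ENNReal.ofReal (D x y) := by
  refine le_antisymm (ENNReal.le_of_forall_pos_le_add fun ε hε _ => ?_) (le_DU h U x y)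
  obtain ⟨L, P, u, hL⟩ := hl.exists_UP h x y (ε := min ε (dOut D U x - D x y))
    (lt_min hε (sub_pos.2 hlt))
  have h1 : L < dOut D U x := by linarith [min_le_right (ε : ℝ) (dOut D U x - D x y)]
  refine (u.DU_le h (u.mapsTo_of_lt h h1)).trans ?_
  rw [← ENNReal.ofReal_coe_nnreal, ← ENNReal.ofReal_add (h.nonneg x y) ε.coe_nonneg]
  exact ENNReal.ofReal_le_ofReal (by linarith [min_le_left (ε : ℝ) (dOut D U x - D x y)])

theorem ofReal_TU (h : IsMet D) (hl : IsLen D) (U : Set E) (x y : E) :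
    ENNReal.ofReal (TU D U x y) = min (DU D U x y) (ENNReal.ofReal (dOut D U x)) := by
  rcases lt_or_ge (D x y) (dOut D U x) with hlt | hge
  · rw [DU_eq_of_lt_dOut h hl hlt, TU_eq_of_le hlt.le,
      min_eq_left (ENNReal.ofReal_le_ofReal hlt.le)]
  · rw [TU, min_eq_right hge, min_eq_right ((ENNReal.ofReal_le_ofReal hge).trans (le_DU h U x y))]

/-- the first exit point of a path lies on the frontier, the piece before it in the closure -/
theorem UP.exists_exit {L : ℝ} {P : ℝ → E} (u : UP D x y L P) (hU : IsOpen U) (hx : x ∈ U)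
    (hne : ¬ MapsTo P (Icc 0 L) U) : ∃ τ ∈ Icc 0 L, 0 < τ ∧ P τ ∈ frontier U ∧
      (∀ s, 0 ≤ s → s < τ → P s ∈ U) ∧ MapsTo P (Icc 0 τ) (closure U) := by
  obtain ⟨τ, hτ, h1, h2⟩ := exists_first_exit u.cont hU hne
  have hpos : 0 < τ := hτ.1.lt_of_ne fun h0 => h1 (by rw [← h0, u.src]; exact hx)
  have hcl : P τ ∈ closure U := by
    have hc : ContinuousWithinAt P (Ico 0 τ) τ :=
      (u.cont τ hτ).mono (Ico_subset_Icc_self.trans (Icc_subset_Icc_right hτ.2))
    refine hc.mem_closure ?_ fun s hs => h2 s hs.1 hs.2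
    rw [closure_Ico hpos.ne]
    exact ⟨hτ.1, le_rfl⟩
  refine ⟨τ, hτ, hpos, ?_, h2, fun s hs => ?_⟩
  · rw [hU.frontier_eq]
    exact ⟨hcl, h1⟩
  · rcases hs.2.eq_or_lt with h' | h'
    · rw [h']
      exact hcl
    · exact subset_closure (h2 s hs.1 h')

/-- almost-between points on the frontier -/
theorem exists_frontier_lt (h : IsMet D) (hl : IsLen D) (hU : IsOpen U) (hx : x ∈ U) (hy : y ∉ U)
    {ε : ℝ} (hε : 0 < ε) : ∃ u ∈ frontier U, D x u + D u y < D x y + ε := by
  obtain ⟨L, P, u, hL⟩ := hl.exists_UP h x y hε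
  obtain ⟨τ, hτ, -, hf, -⟩ := u.exists_exit hU hx fun hm =>
    hy (u.tgt ▸ hm ⟨u.nonneg, le_rfl⟩)
  exact ⟨P τ, hf, by linarith [u.le_left h hτ, u.le_right h hτ]⟩

/-- a point of the frontier exactly between `x` and `y` -/
theorem exists_frontier (h : IsMet D) (hl : IsLen D) (hU : IsOpen U) (hc : IsCompact (frontier U))
    (hx : x ∈ U) (hy : y ∉ U) : ∃ u ∈ frontier U, D x u + D u y = D x y := by
  obtain ⟨u₀, hu₀, -⟩ := exists_frontier_lt h hl hU hx hy one_pos
  obtain ⟨u, hu, hmin⟩ := hc.exists_isMinOn (f := fun u => D x u + D u y) ⟨u₀, hu₀⟩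
    ((h.cont_right x).add (h.cont_left y)).continuousOn
  refine ⟨u, hu, le_antisymm (le_of_forall_pos_le_add fun ε hε => ?_) (h.tri x u y)⟩
  obtain ⟨u', hu', hlt⟩ := exists_frontier_lt h hl hU hx hy hε
  exact (hmin hu').trans hlt.le

theorem dFr_le (h : IsMet D) (x : E) (hy : y ∈ frontier U) : dFr D U x ≤ D x y :=
  csInf_le (h.bddBelow x _) ⟨y, hy, rfl⟩

/-- For a length metric the distance to the complement is the distance to the frontier. -/
theorem dFr_eq_dOut (h : IsMet D) (hl : IsLen D) (hU : IsOpen U) (hx : x ∈ closure U) :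
    dFr D U x = dOut D U x := by
  rcases Uᶜ.eq_empty_or_nonempty with h0 | hne
  · have : U = univ := compl_empty_iff.1 h0
    simp [dFr, dOut, this]
  by_cases hxU : x ∈ U
  · obtain ⟨y₀, hy₀⟩ := hne
    obtain ⟨u₀, hu₀, -⟩ := exists_frontier_lt h hl hU hxU hy₀ one_pos
    refine le_antisymm (le_dOut ⟨y₀, hy₀⟩ fun y hy => le_of_forall_pos_le_add fun ε hε => ?_)
      (le_csInf ⟨_, u₀, hu₀, rfl⟩ ?_)
    · obtain ⟨u, hu, hlt⟩ := exists_frontier_lt h hl hU hxU hy hε
      linarith [dFr_le h x hu, h.nonneg u y]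
    · rintro _ ⟨u, hu, rfl⟩
      rw [hU.frontier_eq] at hu
      exact dOut_le h x hu.2
  · have hf : x ∈ frontier U := by
      rw [hU.frontier_eq]
      exact ⟨hx, hxU⟩
    rw [dOut_of_notMem h hxU]
    exact le_antisymm ((dFr_le h x hf).trans_eq (h.self x))
      (Real.sInf_nonneg (by rintro _ ⟨y, -, rfl⟩; exact h.nonneg x y))

/-- Comparison of local parts from a comparison with an internal metric. -/
theorem TU_le_of_DU {D₁ D₂ : E → E → ℝ} (h₁ : IsMet D₁) (h₂ : IsMet D₂) (hl : IsLen D₂)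
    (hV : IsOpen V) (hne : Vᶜ.Nonempty) (hVU : closure V ⊆ U) {c : ℝ} (hc : 0 ≤ c)
    (hle : x ∈ V → ∀ y ∈ closure V,
      ENNReal.ofReal (TU D₁ V x y) ≤ ENNReal.ofReal c * DU D₂ U x y) (y : E) :
    TU D₁ V x y ≤ c * TU D₂ V x y := by
  by_cases hx : x ∈ V
  swap
  · rw [TU_of_notMem_left h₁ hx, TU_of_notMem_left h₂ hx, mul_zero]
  have key : ∀ y, TU D₁ V x y ≤ c * D₂ x y := by
    intro y
    refine le_of_forall_pos_le_add fun ε hε => ?_
    obtain ⟨L, P, u, hL⟩ := hl.exists_UP h₂ x y (ε := ε / (c + 1)) (by positivity)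
    have e : c * L ≤ c * D₂ x y + ε := by
      have h1 : c * (ε / (c + 1)) ≤ ε := by
        rw [← mul_div_assoc, div_le_iff₀ (by positivity)]
        nlinarith
      nlinarith [mul_le_mul_of_nonneg_left hL.le hc]
    refine le_trans ?_ e
    by_cases hm : MapsTo P (Icc 0 L) V
    · have h1 := (hle hx y (subset_closure (u.tgt ▸ hm ⟨u.nonneg, le_rfl⟩))).trans
        (mul_le_mul_right (u.DU_le h₂ (hm.mono_right (subset_closure.trans hVU))) _)
      rw [← ENNReal.ofReal_mul hc] at h1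
      exact (ENNReal.ofReal_le_ofReal_iff (mul_nonneg hc u.nonneg)).1 h1
    · obtain ⟨τ, hτ, -, hf, -, hcl⟩ := u.exists_exit hV hx hm
      have h1 := (hle hx (P τ) (frontier_subset_closure hf)).trans
        (mul_le_mul_right ((u.restrict hτ).DU_le h₂ (hcl.mono_right hVU)) _)
      rw [hV.frontier_eq] at hf
      rw [← ENNReal.ofReal_mul hc, TU_of_notMem_right h₁ x hf.2] at h1
      exact (TU_le_dOut D₁ V x y).trans
        (((ENNReal.ofReal_le_ofReal_iff (mul_nonneg hc hτ.1)).1 h1).trans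
          (mul_le_mul_of_nonneg_left hτ.2 hc))
  rw [TU.eq_1 D₂, mul_min_of_nonneg _ _ hc]
  refine le_min (key y) ((TU_le_dOut D₁ V x y).trans (le_of_forall_pos_le_add fun ε hε => ?_))
  obtain ⟨z, hz, hlt⟩ := exists_lt_of_dOut_lt (D := D₂) (x := x) hne
    (a := dOut D₂ V x + ε / (c + 1)) (lt_add_of_pos_right _ (by positivity))
  have h1 := key z
  rw [TU_of_notMem_right h₁ x hz] at h1
  have h2 : c * (ε / (c + 1)) ≤ ε := by
    rw [← mul_div_assoc, div_le_iff₀ (by positivity)]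
    nlinarith
  nlinarith [mul_le_mul_of_nonneg_left hlt.le hc]

/-- The distance to the complement of a bounded open set is read off the internal metric at a
dense set of points. -/
theorem ofReal_dOut_eq [ProperSpace E] (h : IsMet D) (hl : IsLen D) (hU : IsOpen U)
    (hb : Bornology.IsBounded U) (hne : Uᶜ.Nonempty) {Q : Set E} (hQ : Dense Q) (hx : x ∈ U) :
    ENNReal.ofReal (dOut D U x) =
      ⨆ n : ℕ, ⨅ q ∈ {q | q ∈ Q ∧ q ∈ U ∧ Metric.infDist q Uᶜ < 1 / ((n : ℝ) + 1)},
        DU D U x q := by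
  refine le_antisymm (ENNReal.le_of_forall_pos_le_add fun ε hε _ => ?_) (iSup_le fun n => ?_)
  · have hK : IsCompact (closure U ∩ {q | (ε : ℝ) ≤ dOut D U q}) :=
      hb.isCompact_closure.inter_right (isClosed_le continuous_const (continuous_dOut h U))
    obtain ⟨a, ha, hle⟩ := hK.exists_forall_le' (f := fun q => Metric.infDist q Uᶜ)
      (Metric.continuous_infDist_pt _).continuousOn (a := 0) fun q hq => by
        refine (Metric.infDist_pos_iff_notMem_closure hne).1 ?_
        rw [hU.isClosed_compl.closure_eq]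
        intro hq'
        have := hq.2
        rw [mem_ofPred_eq, dOut_of_notMem h hq'] at this
        exact this.not_gt hε
    obtain ⟨n, hn⟩ := exists_nat_one_div_lt ha
    refine le_trans ?_ (add_le_add_left (le_iSup _ n) _)
    simp only [ENNReal.iInf_add]
    refine le_iInf₂ fun q hq => ?_
    have h1 : dOut D U q < ε := by
      by_contra hh
      exact (hq.2.2.trans hn).not_ge (hle q ⟨subset_closure hq.2.1, not_lt.1 hh⟩)
    calc ENNReal.ofReal (dOut D U x) ≤ ENNReal.ofReal (D x q + ε) :=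
          ENNReal.ofReal_le_ofReal (by linarith [dOut_le_add h U x q])
      _ = ENNReal.ofReal (D x q) + ε := by
          rw [ENNReal.ofReal_add (h.nonneg x q) ε.coe_nonneg, ENNReal.ofReal_coe_nnreal]
      _ ≤ _ := add_le_add_left (le_DU h U x q) _
  · refine ENNReal.le_of_forall_pos_le_add fun ε hε _ => ?_
    have hε' : (0 : ℝ) < ε / 3 := by positivity
    obtain ⟨y, hy, hlt⟩ := exists_lt_of_dOut_lt (D := D) (x := x) hne
      (lt_add_of_pos_right _ hε')
    obtain ⟨L, P, u, hL⟩ := hl.exists_UP h x y hε'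
    obtain ⟨τ, hτ, hpos, hf, hin, -⟩ := u.exists_exit hU hx fun hm =>
      hy (u.tgt ▸ hm ⟨u.nonneg, le_rfl⟩)
    rw [hU.frontier_eq] at hf
    have hn : (0 : ℝ) < 1 / ((n : ℝ) + 1) / 2 := by positivity
    obtain ⟨δ, hδ, hd⟩ := Metric.continuousWithinAt_iff.1 (u.cont τ hτ) _ hn
    set s := max 0 (τ - δ / 2) with hs
    have hs0 : 0 ≤ s := le_max_left _ _
    have hsτ : s < τ := max_lt hpos (by linarith)
    have hsL : s ∈ Icc 0 L := ⟨hs0, hsτ.le.trans hτ.2⟩
    have h1 : dist (P s) (P τ) < 1 / ((n : ℝ) + 1) / 2 := hd hsL (by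
      rw [Real.dist_eq, abs_lt]
      constructor <;> linarith [le_max_right 0 (τ - δ / 2)])
    have ha : P s ∈ U := hin s hs0 hsτ
    obtain ⟨η, hη, hη'⟩ := h.exists_ball (P s) (lt_min hε' (dOut_pos h hU hne ha))
    obtain ⟨q, hq1, hq2⟩ := hQ.exists_dist_lt (P s) (lt_min hη hn)
    rw [dist_comm] at hq2
    have h2 := hη' q (hq2.trans_le (min_le_left _ _))
    have h3 : D (P s) q < dOut D U (P s) := h2.trans_le (min_le_right _ _)
    have h4 : Metric.infDist q Uᶜ < 1 / ((n : ℝ) + 1) := by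
      refine (Metric.infDist_le_dist_of_mem (y := P τ) (s := Uᶜ) hf.2).trans_lt ?_
      linarith [dist_triangle q (P s) (P τ), hq2.trans_le (min_le_right _ _)]
    refine iInf₂_le_of_le q ⟨hq1, mem_of_lt_dOut h h3, h4⟩ ?_
    · refine (DU_triangle h U x (P s) q).trans ?_
      rw [DU_eq_of_lt_dOut h hl h3]
      refine (add_le_add_left ((u.restrict hsL).DU_le h fun t ht =>
        hin t ht.1 (ht.2.trans_lt hsτ)) _).trans ?_
      rw [← ENNReal.ofReal_add hs0 (h.nonneg _ _), ← ENNReal.ofReal_coe_nnreal,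
        ← ENNReal.ofReal_add (dOut_nonneg h U x) ε.coe_nonneg]
      refine ENNReal.ofReal_le_ofReal ?_
      linarith [h2.trans_le (min_le_left _ _), hsL.2]

/-- Two length metrics with the same internal metric on `U` have the same local part. -/
theorem TU_congr [ProperSpace E] {D' : E → E → ℝ} (h : IsMet D) (hl : IsLen D) (h' : IsMet D')
    (hl' : IsLen D') (hU : IsOpen U) (hb : Bornology.IsBounded U) (hne : Uᶜ.Nonempty)
    (he : ∀ x ∈ U, ∀ y ∈ U, DU D U x y = DU D' U x y) (x y : E) : TU D U x y = TU D' U x y := by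
  by_cases hx : x ∈ U
  swap
  · rw [TU_of_notMem_left h hx, TU_of_notMem_left h' hx]
  have e : ENNReal.ofReal (dOut D U x) = ENNReal.ofReal (dOut D' U x) := by
    rw [ofReal_dOut_eq h hl hU hb hne dense_univ hx, ofReal_dOut_eq h' hl' hU hb hne dense_univ hx]
    exact iSup_congr fun n => iInf_congr fun q => iInf_congr fun hq => he x hx q hq.2.1
  by_cases hy : y ∈ U
  · rw [← ENNReal.ofReal_eq_ofReal_iff (TU_nonneg h U x y) (TU_nonneg h' U x y), ofReal_TU h hl,
      ofReal_TU h' hl', e, he x hx y hy]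
  · rw [TU_of_notMem_right h x hy, TU_of_notMem_right h' x hy]
    exact (ENNReal.ofReal_eq_ofReal_iff (dOut_nonneg h U x) (dOut_nonneg h' U x)).1 e

end LQ.Met
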