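import Pool.Agent.Lib.MP_0d9445_pr.Met.Defs

/-!
Lengths of paths, parametrisation by length, triangle inequality for the internal metric.
-/

set_option autoImplicit false

open Set MeasureTheory Filter Topology
open scoped ENNReal

namespace LQ.Met

variable {E : Type*} [MetricSpace E] {D : E → E → ℝ}

namespace IsMet

theorem nonneg (h : IsMet D) (x y : E) : 0 ≤ D x y := by
  have := h.tri x y x
  rw [h.self, h.symm y x] at this
  linarith

theorem pos (h : IsMet D) {x y : E} (hne : x ≠ y) : 0 < D x y := by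
  obtain ⟨δ, hδ, hd⟩ := h.topo x _ (dist_pos.2 hne)
  by_contra hh
  exact lt_irrefl _ (hd y ((not_lt.1 hh).trans_lt hδ))

theorem eq_of_zero (h : IsMet D) {x y : E} (h0 : D x y = 0) : x = y := by
  by_contra hne
  exact (h.pos hne).ne' h0

theorem cont_right (h : IsMet D) (x : E) : Continuous fun y => D x y :=
  h.cont.comp (f := fun y => (x, y)) (by fun_prop)

theorem cont_left (h : IsMet D) (y : E) : Continuous fun x => D x y :=
  h.cont.comp (f := fun x => (x, y)) (by fun_prop)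

/-- small Euclidean balls are `D`-small -/
theorem exists_ball (h : IsMet D) (x : E) {ε : ℝ} (hε : 0 < ε) :
    ∃ δ > 0, ∀ y, dist y x < δ → D x y < ε := by
  have := (h.cont_right x).continuousAt (x := x) |>.eventually_lt_const (u := ε)
    (by simpa [h.self] using hε)
  exact Metric.eventually_nhds_iff.1 this |>.imp fun δ hδ => ⟨hδ.1, fun y hy => hδ.2 hy⟩

end IsMet

/-- `E` with the metric `D` -/
def Sp (_h : IsMet D) : Type _ := E

instance (h : IsMet D) : PseudoMetricSpace (Sp h) where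
  dist x y := D x y
  dist_self := h.self
  dist_comm := h.symm
  dist_triangle := h.tri

/-- the identity map into `Sp h` -/
def toSp (h : IsMet D) (x : E) : Sp h := x

theorem dist_toSp (h : IsMet D) (x y : E) : dist (toSp h x) (toSp h y) = D x y := rfl

theorem len_eq (h : IsMet D) (γ : ℝ → E) (s : Set ℝ) :
    len D γ s = eVariationOn (fun t => toSp h (γ t)) s := by
  simp only [len, eVariationOn, edist_dist, dist_toSp]

theorem continuous_toSp (h : IsMet D) : Continuous (toSp h) := by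
  refine Metric.continuous_iff.2 fun x ε hε => ?_
  obtain ⟨δ, hδ, hd⟩ := h.exists_ball x hε
  exact ⟨δ, hδ, fun y hy => by rw [dist_toSp, h.symm]; exact hd y hy⟩

omit [MetricSpace E] in
theorem len_mono (D : E → E → ℝ) (γ : ℝ → E) {s t : Set ℝ} (hst : s ⊆ t) :
    len D γ s ≤ len D γ t :=
  iSup_le fun ⟨n, u, hu, us⟩ => le_iSup_of_le ⟨n, u, hu, fun i => hst (us i)⟩ le_rfl

omit [MetricSpace E] in
theorem len_congr (D : E → E → ℝ) {γ γ' : ℝ → E} {s : Set ℝ} (h : EqOn γ γ' s) :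
    len D γ s = len D γ' s := by
  unfold len
  refine iSup_congr fun p => Finset.sum_congr rfl fun i _ => ?_
  rw [h (p.2.2.2 _), h (p.2.2.2 _)]

theorem le_len (h : IsMet D) (γ : ℝ → E) {s : Set ℝ} {a b : ℝ} (ha : a ∈ s) (hb : b ∈ s) :
    ENNReal.ofReal (D (γ a) (γ b)) ≤ len D γ s := by
  rw [len_eq h, ← dist_toSp h, ← edist_dist]
  exact eVariationOn.edist_le (fun t => toSp h (γ t)) ha hb

theorem len_add (h : IsMet D) (γ : ℝ → E) {a b c : ℝ} (hab : a ≤ b) (hbc : b ≤ c) :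
    len D γ (Icc a b) + len D γ (Icc b c) = len D γ (Icc a c) := by
  simpa [len_eq h] using
    eVariationOn.Icc_add_Icc (fun t => toSp h (γ t)) (s := univ) hab hbc (mem_univ _)

theorem len_comp (h : IsMet D) (γ : ℝ → E) {φ : ℝ → ℝ} {s : Set ℝ} (hφ : MonotoneOn φ s) :
    len D (fun t => γ (φ t)) s = len D γ (φ '' s) := by
  rw [len_eq h, len_eq h]
  exact eVariationOn.comp_eq_of_monotoneOn (fun t => toSp h (γ t)) φ hφ

theorem len_comp_anti (h : IsMet D) (γ : ℝ → E) {φ : ℝ → ℝ} {s : Set ℝ} (hφ : AntitoneOn φ s) :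
    len D (fun t => γ (φ t)) s = len D γ (φ '' s) := by
  rw [len_eq h, len_eq h]
  exact eVariationOn.comp_eq_of_antitoneOn (fun t => toSp h (γ t)) φ hφ

theorem len_const (h : IsMet D) (x : E) (s : Set ℝ) : len D (fun _ => x) s = 0 := by
  simp [len, h.self]

namespace UP

variable {x y : E} {L : ℝ} {P : ℝ → E}

theorem lip (h : IsMet D) (u : UP D x y L P) {s t : ℝ} (hs : 0 ≤ s) (hst : s ≤ t) (ht : t ≤ L) :
    D (P s) (P t) ≤ t - s := by
  have := le_len h P (s := Icc s t) ⟨le_rfl, hst⟩ ⟨hst, le_rfl⟩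
  rw [u.speed s t hs hst ht] at this
  exact (ENNReal.ofReal_le_ofReal_iff (sub_nonneg.2 hst)).1 this

theorem le_left (h : IsMet D) (u : UP D x y L P) {t : ℝ} (ht : t ∈ Icc 0 L) : D x (P t) ≤ t := by
  simpa [u.src] using u.lip h le_rfl ht.1 ht.2

theorem le_right (h : IsMet D) (u : UP D x y L P) {t : ℝ} (ht : t ∈ Icc 0 L) :
    D (P t) y ≤ L - t := by
  simpa [u.tgt] using u.lip h ht.1 ht.2 le_rfl

theorem le (h : IsMet D) (u : UP D x y L P) : D x y ≤ L := by
  simpa [u.tgt] using u.le_left h ⟨u.nonneg, le_rfl⟩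

/-- initial piece -/
theorem restrict (u : UP D x y L P) {t : ℝ} (ht : t ∈ Icc 0 L) : UP D x (P t) t P where
  nonneg := ht.1
  cont := u.cont.mono (Icc_subset_Icc_right ht.2)
  src := u.src
  tgt := rfl
  speed a b ha hab hb := u.speed a b ha hab (hb.trans ht.2)

theorem isPath (u : UP D x y L P) {U : Set E} (hU : MapsTo P (Icc 0 L) U) :
    IsPath U x y fun t => P (L * t) where
  cont := u.cont.comp (by fun_prop) fun t ht =>
    ⟨mul_nonneg u.nonneg ht.1, mul_le_of_le_one_right u.nonneg ht.2⟩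
  src := by simp [u.src]
  tgt := by simp [u.tgt]
  maps t ht := hU ⟨mul_nonneg u.nonneg ht.1, mul_le_of_le_one_right u.nonneg ht.2⟩

theorem DU_le (h : IsMet D) (u : UP D x y L P) {U : Set E} (hU : MapsTo P (Icc 0 L) U) :
    DU D U x y ≤ ENNReal.ofReal L := by
  refine iInf₂_le_of_le _ (u.isPath hU) ?_
  rw [len_comp h P (φ := fun t => L * t) fun a _ b _ hab => mul_le_mul_of_nonneg_left hab u.nonneg]
  refine (len_mono D P (t := Icc 0 L) ?_).trans (by rw [u.speed 0 L le_rfl u.nonneg le_rfl, sub_zero])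
  rintro _ ⟨t, ht, rfl⟩
  exact ⟨mul_nonneg u.nonneg ht.1, mul_le_of_le_one_right u.nonneg ht.2⟩

end UP

theorem UP_refl (x : E) (h : IsMet D) : UP D x x 0 fun _ => x where
  nonneg := le_rfl
  cont := continuousOn_const
  src := rfl
  tgt := rfl
  speed s t hs hst ht := by
    rw [len_const h, ENNReal.ofReal_of_nonpos (by linarith)]

/-- A path of finite length can be parametrised by length. -/
theorem IsPath.exists_UP (h : IsMet D) {U : Set E} {x y : E} {γ : ℝ → E} (p : IsPath U x y γ)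
    (hfin : len D γ (Icc 0 1) ≠ ∞) :
    ∃ P, UP D x y (len D γ (Icc 0 1)).toReal P ∧ MapsTo P (Icc 0 (len D γ (Icc 0 1)).toReal) U := by
  set f : ℝ → Sp h := fun t => toSp h (γ t) with hf
  have hbv : BoundedVariationOn f (Icc 0 1) := by
    rw [len_eq h] at hfin
    exact hfin
  have hl := hbv.locallyBoundedVariationOn
  have h0 : (0 : ℝ) ∈ Icc (0 : ℝ) 1 := ⟨le_rfl, zero_le_one⟩
  have h1 : (1 : ℝ) ∈ Icc (0 : ℝ) 1 := ⟨zero_le_one, le_rfl⟩
  have hfc : ContinuousOn f (Icc 0 1) := (continuous_toSp h).comp_continuousOn p.cont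
  set v := variationOnFromTo f (Icc 0 1) 0 with hv
  have hvc : ContinuousOn v (Icc 0 1) := by
    intro b hb
    have hL := variationOnFromTo.tendsto_left h0 hb hl
      ((hfc b hb).mono (inter_subset_left (t := Iio b)))
    have hR := variationOnFromTo.tendsto_right h0 hb hl
      ((hfc b hb).mono (inter_subset_left (t := Ioi b)))
    rw [dist_self, sub_zero] at hL
    rw [dist_self, add_zero] at hR
    have e : Icc (0 : ℝ) 1 ⊆ insert b ((Icc 0 1 ∩ Iio b) ∪ (Icc 0 1 ∩ Ioi b)) := fun t ht => by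
      rcases lt_trichotomy t b with h' | h' | h'
      · exact Or.inr (Or.inl ⟨ht, h'⟩)
      · exact Or.inl h'
      · exact Or.inr (Or.inr ⟨ht, h'⟩)
    exact (ContinuousWithinAt.union hL hR).insert.mono e
  have hv0 : v 0 = 0 := variationOnFromTo.self _ _ _
  have hv1 : v 1 = (len D γ (Icc 0 1)).toReal := by
    rw [hv, variationOnFromTo.eq_of_le _ _ zero_le_one, inter_self, len_eq h]
  have him : v '' Icc 0 1 = Icc 0 (len D γ (Icc 0 1)).toReal := by
    rw [← hv1]
    refine Subset.antisymm ?_ ?_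
    · rintro _ ⟨t, ht, rfl⟩
      exact ⟨hv0 ▸ variationOnFromTo.monotoneOn hl h0 h0 ht ht.1,
        variationOnFromTo.monotoneOn hl h0 ht h1 ht.2⟩
    · have := intermediate_value_Icc zero_le_one hvc
      rwa [hv0] at this
  have hu := has_unit_speed_naturalParameterization f hl h0
  rw [← hv, him] at hu
  set L := (len D γ (Icc 0 1)).toReal with hL
  set P : ℝ → E := naturalParameterization (E := Sp h) f (Icc 0 1) 0 with hP
  have hPv : ∀ b ∈ Icc (0 : ℝ) 1, P (v b) = γ b := fun b hb => by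
    have := edist_naturalParameterization_eq_zero hl h0 hb
    rw [edist_dist, ENNReal.ofReal_eq_zero] at this
    exact h.eq_of_zero (le_antisymm this (h.nonneg _ _))
  have hspeed : ∀ s t, 0 ≤ s → s ≤ t → t ≤ L → len D P (Icc s t) = ENNReal.ofReal (t - s) := by
    intro s t hs hst ht
    have := hu (x := s) ⟨hs, hst.trans ht⟩ (y := t) ⟨hs.trans hst, ht⟩
    rw [inter_eq_right.2 (Icc_subset_Icc hs ht), NNReal.coe_one, one_mul] at this
    rw [len_eq h]
    exact this
  have hlip : ∀ s ∈ Icc 0 L, ∀ t ∈ Icc 0 L, D (P s) (P t) ≤ |t - s| := by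
    have key : ∀ s ∈ Icc 0 L, ∀ t ∈ Icc 0 L, s ≤ t → D (P s) (P t) ≤ t - s := by
      intro s hs t ht hst
      have := le_len h P (s := Icc s t) ⟨le_rfl, hst⟩ ⟨hst, le_rfl⟩
      rw [hspeed s t hs.1 hst ht.2] at this
      exact (ENNReal.ofReal_le_ofReal_iff (sub_nonneg.2 hst)).1 this
    intro s hs t ht
    rcases le_total s t with hst | hst
    · exact (key s hs t ht hst).trans (le_abs_self _)
    · rw [h.symm, abs_sub_comm]
      exact (key t ht s hs hst).trans (le_abs_self _)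
  refine ⟨P, ⟨ENNReal.toReal_nonneg, ?_, ?_, ?_, hspeed⟩, ?_⟩
  · refine Metric.continuousOn_iff.2 fun s hs ε hε => ?_
    obtain ⟨δ, hδ, hd⟩ := h.topo (P s) ε hε
    refine ⟨δ, hδ, fun t ht hts => ?_⟩
    rw [dist_comm]
    exact hd _ ((hlip s hs t ht).trans_lt hts)
  · rw [← p.src, ← hPv 0 h0, hv0]
  · rw [← p.tgt, ← hPv 1 h1, hv1]
  · intro t ht
    rw [← him] at ht
    obtain ⟨b, hb, rfl⟩ := ht
    rw [hPv b hb]
    exact p.maps hb

theorem exists_UP_of_DU_lt (h : IsMet D) {U : Set E} {x y : E} {r : ℝ}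
    (hr : DU D U x y < ENNReal.ofReal r) :
    ∃ L P, UP D x y L P ∧ MapsTo P (Icc 0 L) U ∧ L < r := by
  obtain ⟨γ, hγ⟩ := iInf_lt_iff.1 hr
  obtain ⟨p, hp⟩ := iInf_lt_iff.1 hγ
  obtain ⟨P, u, hU⟩ := p.exists_UP h hp.ne_top
  exact ⟨_, P, u, hU, (ENNReal.toReal_lt_of_lt_ofReal hp)⟩

/-- near-geodesics parametrised by length -/
theorem IsLen.exists_UP (h : IsMet D) (hl : IsLen D) (x y : E) {ε : ℝ} (hε : 0 < ε) :
    ∃ L P, UP D x y L P ∧ L < D x y + ε := by
  obtain ⟨L, P, u, -, hL⟩ := exists_UP_of_DU_lt h (U := univ) (x := x) (y := y) (r := D x y + ε)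
    (by rw [hl x y]
        exact (ENNReal.ofReal_lt_ofReal_iff (by linarith [h.nonneg x y])).2 (by linarith))
  exact ⟨L, P, u, hL⟩

theorem le_DU (h : IsMet D) (U : Set E) (x y : E) : ENNReal.ofReal (D x y) ≤ DU D U x y :=
  le_iInf₂ fun γ p => by
    have := le_len h γ (s := Icc 0 1) ⟨le_rfl, zero_le_one⟩ ⟨zero_le_one, le_rfl⟩
    rwa [p.src, p.tgt] at this

theorem DU_anti (D : E → E → ℝ) {U V : Set E} (hUV : U ⊆ V) (x y : E) :
    DU D V x y ≤ DU D U x y :=
  le_iInf₂ fun γ p => iInf₂_le γ ⟨p.cont, p.src, p.tgt, p.maps.mono_right hUV⟩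

theorem DU_self (h : IsMet D) {U : Set E} {x : E} (hx : x ∈ U) : DU D U x x = 0 :=
  le_antisymm (((UP_refl x h).DU_le h fun _ _ => hx).trans_eq ENNReal.ofReal_zero) zero_le

theorem DU_symm_le (h : IsMet D) (U : Set E) (x y : E) : DU D U y x ≤ DU D U x y := by
  refine le_iInf₂ fun γ p => ?_
  have hm : MapsTo (fun t : ℝ => 1 - t) (Icc 0 1) (Icc 0 1) := fun t ht =>
    ⟨by linarith [ht.2], by linarith [ht.1]⟩
  refine iInf₂_le_of_le (fun t => γ (1 - t))
    ⟨p.cont.comp (by fun_prop) hm, by simp [p.tgt], by simp [p.src], p.maps.comp hm⟩ ?_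
  rw [len_comp_anti h γ (φ := fun t => 1 - t) fun a _ b _ hab => by linarith]
  exact len_mono D γ hm.image_subset

theorem DU_symm (h : IsMet D) (U : Set E) (x y : E) : DU D U x y = DU D U y x :=
  le_antisymm (DU_symm_le h U y x) (DU_symm_le h U x y)

theorem DU_triangle (h : IsMet D) (U : Set E) (x y z : E) :
    DU D U x z ≤ DU D U x y + DU D U y z := by
  unfold DU
  simp only [ENNReal.iInf_add, ENNReal.add_iInf]
  refine le_iInf₂ fun γ' p' => le_iInf₂ fun γ p => ?_
  have m1 : MapsTo (fun t : ℝ => 2 * t) (Icc 0 (1 / 2)) (Icc 0 1) := fun t ht =>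
    ⟨by linarith [ht.1], by linarith [ht.2]⟩
  have m2 : MapsTo (fun t : ℝ => 2 * t - 1) (Icc (1 / 2) 1) (Icc 0 1) := fun t ht =>
    ⟨by linarith [ht.1], by linarith [ht.2]⟩
  set g : ℝ → E := fun t => if t ≤ 1 / 2 then γ (2 * t) else γ' (2 * t - 1) with hg
  have e1 : EqOn g (fun t => γ (2 * t)) (Icc 0 (1 / 2)) := fun t ht => if_pos ht.2
  have e2 : EqOn g (fun t => γ' (2 * t - 1)) (Icc (1 / 2) 1) := fun t ht => by
    rcases ht.1.eq_or_lt with h' | h'
    · subst h'
      simp only [hg, le_refl, if_true]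
      norm_num [p.tgt, p'.src]
    · exact if_neg h'.not_ge
  have hu : Icc (0 : ℝ) 1 = Icc 0 (1 / 2) ∪ Icc (1 / 2) 1 :=
    (Icc_union_Icc_eq_Icc (by norm_num) (by norm_num)).symm
  refine iInf₂_le_of_le g ⟨?_, ?_, ?_, ?_⟩ ?_
  · rw [hu]
    exact ContinuousOn.union_of_isClosed ((p.cont.comp (by fun_prop) m1).congr e1)
      ((p'.cont.comp (by fun_prop) m2).congr e2) isClosed_Icc isClosed_Icc
  · rw [e1 ⟨le_rfl, by norm_num⟩]
    simp [p.src]
  · rw [e2 ⟨by norm_num, le_rfl⟩]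
    norm_num [p'.tgt]
  · rw [hu]
    rintro t (ht | ht)
    · rw [e1 ht]
      exact p.maps (m1 ht)
    · rw [e2 ht]
      exact p'.maps (m2 ht)
  · rw [← len_add h g (a := 0) (b := 1 / 2) (c := 1) (by norm_num) (by norm_num),
      len_congr D e1, len_congr D e2,
      len_comp h γ (φ := fun t => 2 * t) fun a _ b _ hab => by linarith,
      len_comp h γ' (φ := fun t => 2 * t - 1) fun a _ b _ hab => by linarith]
    exact add_le_add (len_mono D γ m1.image_subset) (len_mono D γ' m2.image_subset)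

/-- first exit of a path from an open set -/
theorem exists_first_exit {P : ℝ → E} {L : ℝ} (hP : ContinuousOn P (Icc 0 L)) {U : Set E}
    (hU : IsOpen U) (hne : ¬ MapsTo P (Icc 0 L) U) :
    ∃ τ ∈ Icc 0 L, P τ ∉ U ∧ ∀ s, 0 ≤ s → s < τ → P s ∈ U := by
  have hc : IsClosed (Icc 0 L ∩ P ⁻¹' Uᶜ) :=
    hP.preimage_isClosed_of_isClosed isClosed_Icc hU.isClosed_compl
  have hn : (Icc 0 L ∩ P ⁻¹' Uᶜ).Nonempty := by
    by_contra hh
    refine hne fun t ht => ?_
    by_contra h'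
    exact hh ⟨t, ht, h'⟩
  obtain ⟨τ, hτ, hmin⟩ := (isCompact_Icc.of_isClosed_subset hc inter_subset_left).exists_isLeast hn
  refine ⟨τ, hτ.1, hτ.2, fun s hs hsτ => ?_⟩
  by_contra h'
  exact hsτ.not_ge (hmin ⟨⟨hs, hsτ.le.trans hτ.1.2⟩, h'⟩)

end LQ.Met
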